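import Pool.Agent.Q175.MG.Defs

/-! The Burgers equation for `Ψ` and its consequences along characteristics. -/

set_option autoImplicit false

open Set Filter Topology
open scoped ContDiff Matrix

namespace Pool.Agent.Q175.MG

lemma dd {f : ℝ × ℝ → ℝ} {p : ℝ × ℝ} (hf : ContDiffAt ℝ 2 f p) (v w : ℝ × ℝ) :
    fderiv ℝ (fun p => fderiv ℝ f p v) p w = fderiv ℝ (fderiv ℝ f) p w v := by
  have h1 : DifferentiableAt ℝ (fderiv ℝ f) p :=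
    (hf.fderiv_right (m := 1) (by norm_num)).differentiableAt (by norm_num)
  rw [fderiv_clm_apply h1 (differentiableAt_const _)]
  simp

lemma dd_symm {f : ℝ × ℝ → ℝ} {p : ℝ × ℝ} (hf : ContDiffAt ℝ 2 f p) (v w : ℝ × ℝ) :
    fderiv ℝ (fderiv ℝ f) p w v = fderiv ℝ (fderiv ℝ f) p v w := by
  have h := hf.isSymmSndFDerivAt (by simp)
  exact h w v

lemma dt_cdiff {f : ℝ × ℝ → ℝ} {Ω : Set (ℝ × ℝ)} (hΩ : IsOpen Ω) (hf : ContDiffOn ℝ ∞ f Ω)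
    (v : ℝ × ℝ) : ContDiffOn ℝ ∞ (fun p => fderiv ℝ f p v) Ω :=
  (hf.fderiv_of_isOpen hΩ (m := ∞) (by simp)).clm_apply contDiffOn_const

lemma psi_smooth {Φ : ℝ × ℝ → ℝ} {Ω : Set (ℝ × ℝ)} (hΩ : IsOpen Ω) (hΦ : ContDiffOn ℝ ∞ Φ Ω) :
    ContDiffOn ℝ ∞ (Psi Φ) Ω :=
  (dt_cdiff hΩ hΦ _).sub (contDiffOn_const.mul (dt_cdiff hΩ hΦ _))

lemma two_le : (2 : ℕ∞ω) ≤ ∞ := WithTop.coe_le_coe.mpr le_top

/-- `Ψ` solves a Burgers equation. -/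
lemma burgers {Φ : ℝ × ℝ → ℝ} {Ω : Set (ℝ × ℝ)} (hΩ : IsOpen Ω) (hΦ : ContDiffOn ℝ ∞ Φ Ω)
    {p : ℝ × ℝ} (hp : p ∈ Ω) :
    dt (Psi Φ) p + (2 + Psi Φ p) * dx (Psi Φ) p =
      -(-dt (dt Φ) p - Psi Φ p * dt (dx Φ) p + 2 * (2 + Psi Φ p) * dx (dx Φ) p) := by
  have hat : ContDiffAt ℝ ∞ Φ p := hΦ.contDiffAt (hΩ.mem_nhds hp)
  have h2 : ContDiffAt ℝ 2 Φ p := hat.of_le two_le
  have hd : ∀ v : ℝ × ℝ, DifferentiableAt ℝ (fun p => fderiv ℝ Φ p v) p := fun v =>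
    ((dt_cdiff hΩ hΦ v).contDiffAt (hΩ.mem_nhds hp)).differentiableAt (by simp)
  have e : ∀ w : ℝ × ℝ, fderiv ℝ (Psi Φ) p w = fderiv ℝ (fun p => fderiv ℝ Φ p (1, 0)) p w -
      2 * fderiv ℝ (fun p => fderiv ℝ Φ p (0, 1)) p w := by
    intro w
    have : Psi Φ = (fun p => fderiv ℝ Φ p (1, 0)) - fun p => 2 * fderiv ℝ Φ p (0, 1) := rfl
    rw [this, fderiv_sub (hd _) ((hd _).const_mul 2)]
    rw [ContinuousLinearMap.sub_apply, fderiv_const_mul (hd _)]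
    simp
  have e1 : dt (Psi Φ) p = dt (dt Φ) p - 2 * dt (dx Φ) p := e _
  have e2 : dx (Psi Φ) p = dx (dt Φ) p - 2 * dx (dx Φ) p := e _
  have e3 : dx (dt Φ) p = dt (dx Φ) p := by
    change fderiv ℝ (fun p => fderiv ℝ Φ p (1, 0)) p (0, 1) = fderiv ℝ (fun p => fderiv ℝ Φ p (0, 1)) p (1, 0)
    rw [dd h2, dd h2, dd_symm h2]
  rw [e1, e2, e3]
  ring

lemma fderiv_split (f : ℝ × ℝ → ℝ) (p : ℝ × ℝ) (a b : ℝ) :
    fderiv ℝ f p (a, b) = a * dt f p + b * dx f p := by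
  have : ((a, b) : ℝ × ℝ) = a • (1, 0) + b • (0, 1) := by simp
  rw [this, map_add, map_smul, map_smul]
  rfl

/-- `Ψ` is constant on the segments of characteristic lines. -/
lemma const_seg {Φ : ℝ × ℝ → ℝ} {Ω : Set (ℝ × ℝ)} (hΩ : IsOpen Ω) (hΦ : ContDiffOn ℝ ∞ Φ Ω)
    (heq : ∀ p ∈ Ω, -dt (dt Φ) p - Psi Φ p * dt (dx Φ) p + 2 * (2 + Psi Φ p) * dx (dx Φ) p = 0)
    {P : ℝ × ℝ} {τ lam : ℝ} (hP : Psi Φ P = lam)
    (hseg : ∀ σ ∈ Icc (0:ℝ) 1, (P.1 + σ * τ, P.2 + σ * (τ * (2 + lam))) ∈ Ω) :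
    ∀ σ ∈ Icc (0:ℝ) 1, Psi Φ (P.1 + σ * τ, P.2 + σ * (τ * (2 + lam))) = lam := by
  set L : ℝ → ℝ × ℝ := fun σ => (P.1 + σ * τ, P.2 + σ * (τ * (2 + lam))) with hL
  have hLd : ∀ σ, HasDerivAt L (τ, τ * (2 + lam)) σ := by
    intro σ
    have a : HasDerivAt (fun σ : ℝ => P.1 + σ * τ) τ σ := by
      simpa using ((hasDerivAt_id σ).mul_const τ).const_add P.1
    have b : HasDerivAt (fun σ : ℝ => P.2 + σ * (τ * (2 + lam))) (τ * (2 + lam)) σ := by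
      simpa using ((hasDerivAt_id σ).mul_const (τ * (2 + lam))).const_add P.2
    exact a.prodMk b
  have hps := psi_smooth hΩ hΦ
  have hdiff : ∀ σ ∈ Icc (0:ℝ) 1, HasDerivAt (fun σ => Psi Φ (L σ) - lam)
      (-(τ * dx (Psi Φ) (L σ)) * (Psi Φ (L σ) - lam)) σ := by
    intro σ hσ
    have h1 : HasFDerivAt (Psi Φ) (fderiv ℝ (Psi Φ) (L σ)) (L σ) :=
      ((hps.contDiffAt (hΩ.mem_nhds (hseg σ hσ))).differentiableAt (by simp)).hasFDerivAt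
    have h2 := (h1.comp_hasDerivAt σ (hLd σ)).sub_const lam
    refine h2.congr_deriv ?_
    rw [fderiv_split]
    have h3 := burgers hΩ hΦ (hseg σ hσ)
    rw [heq _ (hseg σ hσ), neg_zero] at h3
    have h4 : dt (Psi Φ) (L σ) = -((2 + Psi Φ (L σ)) * dx (Psi Φ) (L σ)) := by
      linarith
    rw [h4]; ring
  have hcont : ContinuousOn (fun σ => -(τ * dx (Psi Φ) (L σ))) (Icc 0 1) := by
    have h1 : ContinuousOn (dx (Psi Φ)) Ω := (dt_cdiff hΩ hps (0, 1)).continuousOn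
    have h2 : Continuous L := continuous_iff_continuousAt.mpr fun σ => (hLd σ).continuousAt
    exact (continuousOn_const.mul (h1.comp h2.continuousOn hseg)).neg
  obtain ⟨K, hK⟩ := isCompact_Icc.exists_bound_of_continuousOn hcont
  have hg := norm_le_gronwallBound_of_norm_deriv_right_le (f := fun σ => Psi Φ (L σ) - lam)
    (f' := fun σ => -(τ * dx (Psi Φ) (L σ)) * (Psi Φ (L σ) - lam)) (δ := 0) (K := K) (ε := 0)
    (a := 0) (b := 1)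
    (fun σ hσ => (hdiff σ hσ).continuousAt.continuousWithinAt)
    (fun σ hσ => (hdiff σ (Ico_subset_Icc_self hσ)).hasDerivWithinAt)
    (by simp [hL, hP])
    (fun σ hσ => by
      rw [norm_mul, add_zero]
      exact mul_le_mul_of_nonneg_right (hK σ (Ico_subset_Icc_self hσ)) (norm_nonneg _))
  intro σ hσ
  have := hg σ hσ
  rw [gronwallBound_ε0_δ0] at this
  have h0 := norm_le_zero_iff.mp this
  linarith

end Pool.Agent.Q175.MG
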