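import Pool.Agent.Q175.MG.Burg

/-! Restricting inextendible curves to open subsets; unions. -/

set_option autoImplicit false

open Set Filter Topology
open scoped ContDiff Matrix

namespace Pool.Agent.Q175.MG

section comp
variable {I₀ : Set ℝ} {W : Set (ℝ × ℝ)} {γ : ℝ → ℝ × ℝ} {s₀ : ℝ} {q : ℝ × ℝ}

lemma end_top (hI : IsOpen I₀) (hIo : I₀.OrdConnected) (hc : ContinuousOn γ I₀) (hW : IsOpen W)
    (hs : s₀ ∈ I₀ ∩ γ ⁻¹' W) (hq : q ∈ W)
    (hlim : Tendsto (fun s : ↥(connectedComponentIn (I₀ ∩ γ ⁻¹' W) s₀) => γ s) atTop (𝓝 q)) :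
    Tendsto (fun s : I₀ => γ s) atTop (𝓝 q) := by
  set F := I₀ ∩ γ ⁻¹' W with hFdef
  have hF : IsOpen F := hc.isOpen_inter_preimage hI hW
  set J := connectedComponentIn F s₀ with hJdef
  have hJ : IsOpen J := hF.connectedComponentIn
  have hJo : J.OrdConnected := isPreconnected_connectedComponentIn.ordConnected
  have hJF : J ⊆ F := connectedComponentIn_subset _ _
  have hs0 : s₀ ∈ J := mem_connectedComponentIn hs
  have : Nonempty J := ⟨⟨s₀, hs0⟩⟩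
  have : Nonempty I₀ := ⟨⟨s₀, hs.1⟩⟩
  by_cases hb : ∃ b ∈ I₀, ∀ s ∈ J, s ≤ b
  · exfalso
    obtain ⟨b, hb, hub⟩ := hb
    have hbd : BddAbove J := ⟨b, hub⟩
    have hne : J.Nonempty := ⟨s₀, hs0⟩
    have h1 : s₀ ≤ sSup J := le_csSup hbd hs0
    have h2 : sSup J ≤ b := csSup_le hne hub
    have hbI : sSup J ∈ I₀ := hIo.out hs.1 hb ⟨h1, h2⟩
    have hl1 : Tendsto (fun s : J => (s : ℝ)) atTop (𝓝 (sSup J)) := by
      apply tendsto_atTop_isLUB (f := fun s : J => (s : ℝ)) (fun a b h => h)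
      rw [Subtype.range_coe]
      exact isLUB_csSup hne hbd
    have hl2 : Tendsto (fun s : J => γ s) atTop (𝓝 (γ (sSup J))) :=
      ((hc.continuousAt (hI.mem_nhds hbI)).tendsto).comp hl1
    have hq2 : γ (sSup J) = q := tendsto_nhds_unique hl2 hlim
    have hbF : sSup J ∈ F := ⟨hbI, by change γ (sSup J) ∈ W; rw [hq2]; exact hq⟩
    have hsub : Icc s₀ (sSup J) ⊆ F := by
      intro s hs'
      rcases eq_or_lt_of_le hs'.2 with h | h
      · rw [h]; exact hbF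
      · obtain ⟨s', hs'', hlt⟩ := exists_lt_of_lt_csSup hne h
        exact hJF (hJo.out hs0 hs'' ⟨hs'.1, hlt.le⟩)
    have hbJ : sSup J ∈ J :=
      isPreconnected_Icc.subset_connectedComponentIn (left_mem_Icc.mpr h1) hsub (right_mem_Icc.mpr h1)
    obtain ⟨ε, hε, hball⟩ := Metric.isOpen_iff.mp hJ _ hbJ
    have h3 : sSup J + ε / 2 ∈ J := hball (by
      rw [Metric.mem_ball, Real.dist_eq]
      rw [add_sub_cancel_left, abs_of_pos (by positivity)]
      linarith)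
    have h4 := le_csSup hbd h3
    linarith
  · push Not at hb
    rw [tendsto_atTop'] at hlim ⊢
    intro V hV
    obtain ⟨⟨s1, hs1⟩, h1⟩ := hlim V hV
    refine ⟨⟨s1, (hJF hs1).1⟩, ?_⟩
    rintro ⟨s, hs'⟩ hge
    obtain ⟨s2, hs2, hlt⟩ := hb s hs'
    have hsJ : s ∈ J := hJo.out hs1 hs2 ⟨hge, hlt.le⟩
    exact h1 ⟨s, hsJ⟩ hge

lemma end_bot (hI : IsOpen I₀) (hIo : I₀.OrdConnected) (hc : ContinuousOn γ I₀) (hW : IsOpen W)
    (hs : s₀ ∈ I₀ ∩ γ ⁻¹' W) (hq : q ∈ W)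
    (hlim : Tendsto (fun s : ↥(connectedComponentIn (I₀ ∩ γ ⁻¹' W) s₀) => γ s) atBot (𝓝 q)) :
    Tendsto (fun s : I₀ => γ s) atBot (𝓝 q) := by
  set F := I₀ ∩ γ ⁻¹' W with hFdef
  have hF : IsOpen F := hc.isOpen_inter_preimage hI hW
  set J := connectedComponentIn F s₀ with hJdef
  have hJ : IsOpen J := hF.connectedComponentIn
  have hJo : J.OrdConnected := isPreconnected_connectedComponentIn.ordConnected
  have hJF : J ⊆ F := connectedComponentIn_subset _ _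
  have hs0 : s₀ ∈ J := mem_connectedComponentIn hs
  have : Nonempty J := ⟨⟨s₀, hs0⟩⟩
  have : Nonempty I₀ := ⟨⟨s₀, hs.1⟩⟩
  by_cases hb : ∃ b ∈ I₀, ∀ s ∈ J, b ≤ s
  · exfalso
    obtain ⟨b, hb, hub⟩ := hb
    have hbd : BddBelow J := ⟨b, hub⟩
    have hne : J.Nonempty := ⟨s₀, hs0⟩
    have h1 : sInf J ≤ s₀ := csInf_le hbd hs0
    have h2 : b ≤ sInf J := le_csInf hne hub
    have hbI : sInf J ∈ I₀ := hIo.out hb hs.1 ⟨h2, h1⟩
    have hl1 : Tendsto (fun s : J => (s : ℝ)) atBot (𝓝 (sInf J)) := by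
      apply tendsto_atBot_isGLB (f := fun s : J => (s : ℝ)) (fun a b h => h)
      rw [Subtype.range_coe]
      exact isGLB_csInf hne hbd
    have hl2 : Tendsto (fun s : J => γ s) atBot (𝓝 (γ (sInf J))) :=
      ((hc.continuousAt (hI.mem_nhds hbI)).tendsto).comp hl1
    have hq2 : γ (sInf J) = q := tendsto_nhds_unique hl2 hlim
    have hbF : sInf J ∈ F := ⟨hbI, by change γ (sInf J) ∈ W; rw [hq2]; exact hq⟩
    have hsub : Icc (sInf J) s₀ ⊆ F := by
      intro s hs'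
      rcases eq_or_lt_of_le hs'.1 with h | h
      · rw [← h]; exact hbF
      · obtain ⟨s', hs'', hlt⟩ := exists_lt_of_csInf_lt hne h
        exact hJF (hJo.out hs'' hs0 ⟨hlt.le, hs'.2⟩)
    have hbJ : sInf J ∈ J :=
      isPreconnected_Icc.subset_connectedComponentIn (right_mem_Icc.mpr h1) hsub (left_mem_Icc.mpr h1)
    obtain ⟨ε, hε, hball⟩ := Metric.isOpen_iff.mp hJ _ hbJ
    have h3 : sInf J - ε / 2 ∈ J := hball (by
      rw [Metric.mem_ball, Real.dist_eq]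
      rw [show sInf J - ε / 2 - sInf J = -(ε / 2) by ring, abs_neg, abs_of_pos (by positivity)]
      linarith)
    have h4 := csInf_le hbd h3
    linarith
  · push Not at hb
    rw [tendsto_atBot'] at hlim ⊢
    intro V hV
    obtain ⟨⟨s1, hs1⟩, h1⟩ := hlim V hV
    refine ⟨⟨s1, (hJF hs1).1⟩, ?_⟩
    rintro ⟨s, hs'⟩ hge
    obtain ⟨s2, hs2, hlt⟩ := hb s hs'
    have hsJ : s ∈ J := hJo.out hs2 hs1 ⟨hlt.le, hge⟩
    exact h1 ⟨s, hsJ⟩ hge

end comp

/-- Characteristic lines: in a development the segment of a null line from `p` to `{t = 0}` stays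
in `Ω`. Here the line has slope `v` and is assumed to be null as long as it stays in `Ω`. -/
lemma line_mem {Ω : Set (ℝ × ℝ)} {Ψ : ℝ × ℝ → ℝ} (hΩ : IsOpen Ω) (hC : IsCauchy Ω Ψ)
    {p : ℝ × ℝ} (hp : p ∈ Ω) {v : ℝ}
    (hnull : ∀ T : ℝ, (∀ s ∈ uIcc p.1 T, (s, p.2 + v * (s - p.1)) ∈ Ω) →
      metric (Ψ (T, p.2 + v * (T - p.1))) (1, v) ≤ 0) :
    ∀ s ∈ uIcc p.1 0, (s, p.2 + v * (s - p.1)) ∈ Ω := by
  set ℓ : ℝ → ℝ × ℝ := fun s => (s, p.2 + v * (s - p.1)) with hℓ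
  have hd : ∀ s, HasDerivAt ℓ (1, v) s := by
    intro s
    have a : HasDerivAt (fun s : ℝ => s) 1 s := hasDerivAt_id s
    have b : HasDerivAt (fun s : ℝ => p.2 + v * (s - p.1)) v s := by
      simpa using (((hasDerivAt_id s).sub_const p.1).const_mul v).const_add p.2
    exact a.prodMk b
  have hcd : ContDiff ℝ 1 ℓ := by
    apply ContDiff.prodMk contDiff_id
    fun_prop
  have hcont : ContinuousOn ℓ univ := hcd.continuous.continuousOn
  have hmem : p.1 ∈ univ ∩ ℓ ⁻¹' Ω := ⟨mem_univ _, by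
    change (p.1, p.2 + v * (p.1 - p.1)) ∈ Ω
    simpa using hp⟩
  set I := connectedComponentIn (univ ∩ ℓ ⁻¹' Ω) p.1 with hI
  have hIF : I ⊆ univ ∩ ℓ ⁻¹' Ω := connectedComponentIn_subset _ _
  have hIo : I.OrdConnected := isPreconnected_connectedComponentIn.ordConnected
  have hp1 : p.1 ∈ I := mem_connectedComponentIn hmem
  have hopen : IsOpen I := (hcont.isOpen_inter_preimage isOpen_univ hΩ).connectedComponentIn
  have hcurve : IsCausalCurve Ω Ψ I ℓ := by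
    refine ⟨hopen, hIo, ⟨p.1, hp1⟩, hcd.contDiffOn, fun s hs => (hIF hs).2, fun s hs => ?_⟩
    rw [(hd s).deriv]
    refine ⟨fun h => one_ne_zero (congrArg Prod.fst h), ?_⟩
    apply hnull
    intro s' hs'
    exact (hIF (hIo.uIcc_subset hp1 hs hs')).2
  have hinext : Inextendible Ω I ℓ := by
    constructor
    · rintro ⟨q, hq, hlim⟩
      have h1 := end_top isOpen_univ ordConnected_univ hcont hΩ hmem hq hlim
      have h2 : Tendsto (fun s : (univ : Set ℝ) => (s : ℝ)) atTop (𝓝 q.1) :=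
        (continuous_fst.tendsto q).comp h1
      rw [tendsto_atTop'] at h2
      obtain ⟨⟨a, _⟩, ha⟩ := h2 (Iio (q.1 + 1)) (Iio_mem_nhds (by linarith))
      have := ha ⟨max a (q.1 + 1), mem_univ _⟩ (Subtype.mk_le_mk.mpr (le_max_left _ _))
      have h3 : max a (q.1 + 1) < q.1 + 1 := this
      exact absurd (le_max_right a (q.1 + 1)) (not_le.mpr h3)
    · rintro ⟨q, hq, hlim⟩
      have h1 := end_bot isOpen_univ ordConnected_univ hcont hΩ hmem hq hlim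
      have h2 : Tendsto (fun s : (univ : Set ℝ) => (s : ℝ)) atBot (𝓝 q.1) :=
        (continuous_fst.tendsto q).comp h1
      rw [tendsto_atBot'] at h2
      obtain ⟨⟨a, _⟩, ha⟩ := h2 (Ioi (q.1 - 1)) (Ioi_mem_nhds (by linarith))
      have := ha ⟨min a (q.1 - 1), mem_univ _⟩ (Subtype.mk_le_mk.mpr (min_le_left _ _))
      have h3 : q.1 - 1 < min a (q.1 - 1) := this
      exact absurd (min_le_right a (q.1 - 1)) (not_le.mpr h3)
  obtain ⟨s, ⟨hs, hs0⟩, -⟩ := hC I ℓ hcurve hinext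
  have h0 : (0:ℝ) ∈ I := by
    have : s = 0 := hs0
    rwa [this] at hs
  intro s' hs'
  exact (hIF (hIo.uIcc_subset hp1 h0 hs')).2

/-- Two zeros of `t` along a causal curve coincide. -/
lemma unique_zero {Ω : Set (ℝ × ℝ)} {Ψ : ℝ × ℝ → ℝ} (hne : ∀ p ∈ Ω, Ψ p ≠ -4) {I : Set ℝ}
    {γ : ℝ → ℝ × ℝ} (h : IsCausalCurve Ω Ψ I γ) {s s' : ℝ} (hs : s ∈ I) (hs' : s' ∈ I)
    (h0 : (γ s).1 = (γ s').1) : s = s' := by
  have key : ∀ a b : ℝ, a ∈ I → b ∈ I → (γ a).1 = (γ b).1 → ¬ a < b := by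
    intro a b ha hb hab hlt
    have hsub : Icc a b ⊆ I := h.ordConnected.out ha hb
    have hdiff : ∀ x ∈ I, HasDerivAt γ (deriv γ x) x := fun x hx =>
      ((h.c1.contDiffAt (h.isOpen.mem_nhds hx)).differentiableAt (by norm_num)).hasDerivAt
    have hd1 : ∀ x ∈ I, HasDerivAt (fun s => (γ s).1) (deriv γ x).1 x := fun x hx => by
      exact (hasFDerivAt_fst (𝕜 := ℝ) (p := γ x)).comp_hasDerivAt x (hdiff x hx)
    obtain ⟨c, hc, hc0⟩ := exists_hasDerivAt_eq_zero (f := fun s => (γ s).1)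
      (f' := fun s => (deriv γ s).1) hlt
      (fun x hx => (hd1 x (hsub hx)).continuousAt.continuousWithinAt) hab
      (fun x hx => hd1 x (hsub (Ioo_subset_Icc_self hx)))
    have hcI := hsub (Ioo_subset_Icc_self hc)
    have hc2 := h.causal c hcI
    exact causal_fst_ne (hne _ (h.mem c hcI)) hc2.1 hc2.2 hc0
  rcases lt_trichotomy s s' with h1 | h1 | h1
  · exact absurd h1 (key s s' hs hs' h0)
  · exact h1
  · exact absurd h1 (key s' s hs' hs h0.symm)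

/-- The Cauchy property of a union: `Ω` is covered by open sets `W` on which `{t = 0}` is a Cauchy
hypersurface for a function agreeing there with `Ψ`. -/
lemma cauchy_of_cover {Ω : Set (ℝ × ℝ)} {Ψ : ℝ × ℝ → ℝ} (hne : ∀ p ∈ Ω, Ψ p ≠ -4)
    (hcov : ∀ p ∈ Ω, ∃ (W : Set (ℝ × ℝ)) (Ψ' : ℝ × ℝ → ℝ), IsOpen W ∧ p ∈ W ∧ W ⊆ Ω ∧
      EqOn Ψ' Ψ W ∧ IsCauchy W Ψ') : IsCauchy Ω Ψ := by
  intro I γ hγ hin
  obtain ⟨s₀, hs₀⟩ := hγ.nonempty
  obtain ⟨W, Ψ', hW, hpW, hWΩ, heq, hC⟩ := hcov (γ s₀) (hγ.mem s₀ hs₀)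
  have hc : ContinuousOn γ I := hγ.c1.continuousOn
  have hmem : s₀ ∈ I ∩ γ ⁻¹' W := ⟨hs₀, hpW⟩
  set J := connectedComponentIn (I ∩ γ ⁻¹' W) s₀ with hJ
  have hJF : J ⊆ I ∩ γ ⁻¹' W := connectedComponentIn_subset _ _
  have hJo : J.OrdConnected := isPreconnected_connectedComponentIn.ordConnected
  have hp1 : s₀ ∈ J := mem_connectedComponentIn hmem
  have hopen : IsOpen J := (hc.isOpen_inter_preimage hγ.isOpen hW).connectedComponentIn
  have hcurve : IsCausalCurve W Ψ' J γ := by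
    refine ⟨hopen, hJo, ⟨s₀, hp1⟩, hγ.c1.mono fun s hs => (hJF hs).1, fun s hs => (hJF hs).2,
      fun s hs => ?_⟩
    rw [heq (hJF hs).2]
    exact hγ.causal s (hJF hs).1
  have hinext : Inextendible W J γ := by
    constructor
    · rintro ⟨q, hq, hlim⟩
      exact hin.1 ⟨q, hWΩ hq, end_top hγ.isOpen hγ.ordConnected hc hW hmem hq hlim⟩
    · rintro ⟨q, hq, hlim⟩
      exact hin.2 ⟨q, hWΩ hq, end_bot hγ.isOpen hγ.ordConnected hc hW hmem hq hlim⟩
  obtain ⟨s, ⟨hs, hs0⟩, -⟩ := hC J γ hcurve hinext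
  refine ⟨s, ⟨(hJF hs).1, hs0⟩, ?_⟩
  rintro s' ⟨hs', hs'0⟩
  exact unique_zero hne hγ hs' (hJF hs).1 (by rw [hs'0, hs0])

end Pool.Agent.Q175.MG
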