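import Mathlib

/-! Definitions for the model wave equation
`-∂ₜ²Φ - Ψ ∂ₜ∂ₓΦ + 2 (2 + Ψ) ∂ₓ²Φ = 0`, `Ψ = ∂ₜΦ - 2 ∂ₓΦ`, on `ℝ × ℝ ∋ (t, x)`. -/

set_option autoImplicit false

open Set Filter Topology
open scoped ContDiff Matrix

namespace Pool.Agent.Q175.MG

/-- The partial derivative `∂ₜ f`. -/
noncomputable def dt (f : ℝ × ℝ → ℝ) (p : ℝ × ℝ) : ℝ := fderiv ℝ f p (1, 0)

/-- The partial derivative `∂ₓ f`. -/
noncomputable def dx (f : ℝ × ℝ → ℝ) (p : ℝ × ℝ) : ℝ := fderiv ℝ f p (0, 1)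

/-- `Ψ = ∂ₜΦ - 2 ∂ₓΦ`. -/
noncomputable def Psi (Φ : ℝ × ℝ → ℝ) (p : ℝ × ℝ) : ℝ := dt Φ p - 2 * dx Φ p

/-- The inverse acoustical metric as a matrix in the coordinates `(t, x)`. -/
noncomputable def ginv (ψ : ℝ) : Matrix (Fin 2) (Fin 2) ℝ :=
  !![-1, -ψ / 2; -ψ / 2, 2 * (2 + ψ)]

/-- The value `g(V, V)` of the acoustical metric `g(Ψ)`, the inverse matrix of `ginv`, on the
vector `V = (Vₜ, Vₓ)`. -/
noncomputable def metric (ψ : ℝ) (V : ℝ × ℝ) : ℝ :=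
  ![V.1, V.2] ⬝ᵥ ((ginv ψ)⁻¹ *ᵥ ![V.1, V.2])

/-- A `C¹` causal curve `γ : I → Ω` in the Lorentzian manifold `(Ω, g(Ψ))`, where `I` is a
nonempty open interval: its velocity is nonzero and `g(γ', γ') ≤ 0`. -/
structure IsCausalCurve (Ω : Set (ℝ × ℝ)) (Ψ : ℝ × ℝ → ℝ) (I : Set ℝ) (γ : ℝ → ℝ × ℝ) : Prop where
  isOpen : IsOpen I
  ordConnected : I.OrdConnected
  nonempty : I.Nonempty
  c1 : ContDiffOn ℝ 1 γ I
  mem : ∀ s ∈ I, γ s ∈ Ω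
  causal : ∀ s ∈ I, deriv γ s ≠ 0 ∧ metric (Ψ (γ s)) (deriv γ s) ≤ 0

/-- The curve `γ : I → Ω` is inextendible in `Ω`: it has no end point in `Ω`, that is, `γ s` has no
limit in `Ω` as `s` tends to the right end of `I`, and none as `s` tends to the left end of `I`. -/
def Inextendible (Ω : Set (ℝ × ℝ)) (I : Set ℝ) (γ : ℝ → ℝ × ℝ) : Prop :=
  (¬ ∃ q ∈ Ω, Tendsto (fun s : I => γ s) atTop (𝓝 q)) ∧
    ¬ ∃ q ∈ Ω, Tendsto (fun s : I => γ s) atBot (𝓝 q)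

/-- `{t = 0}` is a Cauchy hypersurface of `(Ω, g(Ψ))`: every inextendible causal curve in `Ω`
meets it exactly once. -/
def IsCauchy (Ω : Set (ℝ × ℝ)) (Ψ : ℝ × ℝ → ℝ) : Prop :=
  ∀ (I : Set ℝ) (γ : ℝ → ℝ × ℝ), IsCausalCurve Ω Ψ I γ → Inextendible Ω I γ →
    ∃! s, s ∈ I ∧ (γ s).1 = 0

/-- `(Ω, Φ)` is a globally hyperbolic development of the data `(φ₀, φ₁)`. Only the values of `Φ`
on `Ω` matter. -/
structure IsGHD (φ₀ φ₁ : ℝ → ℝ) (Ω : Set (ℝ × ℝ)) (Φ : ℝ × ℝ → ℝ) : Prop where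
  isOpen : IsOpen Ω
  line_subset : ∀ x, (0, x) ∈ Ω
  smooth : ContDiffOn ℝ ∞ Φ Ω
  eqn : ∀ p ∈ Ω, -dt (dt Φ) p - Psi Φ p * dt (dx Φ) p + 2 * (2 + Psi Φ p) * dx (dx Φ) p = 0
  init₀ : ∀ x, Φ (0, x) = φ₀ x
  init₁ : ∀ x, dt Φ (0, x) = φ₁ x
  ne : ∀ p ∈ Ω, Psi Φ p ≠ -4
  cauchy : IsCauchy Ω (Psi Φ)

/-- `(Ω, Φ)` is a maximal globally hyperbolic development: it is a globally hyperbolic development
with no proper extension to a globally hyperbolic development. -/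
def IsMGHD (φ₀ φ₁ : ℝ → ℝ) (Ω : Set (ℝ × ℝ)) (Φ : ℝ × ℝ → ℝ) : Prop :=
  IsGHD φ₀ φ₁ Ω Φ ∧ ∀ (Ω' : Set (ℝ × ℝ)) (Φ' : ℝ × ℝ → ℝ), IsGHD φ₀ φ₁ Ω' Φ' → Ω ⊆ Ω' →
    EqOn Φ' Φ Ω → Ω' = Ω

lemma metric_eq {ψ : ℝ} (h : ψ ≠ -4) (V : ℝ × ℝ) :
    metric ψ V = -(4 / (ψ + 4) ^ 2) * (((2 + ψ) * V.1 - V.2) * (2 * V.1 + V.2)) := by
  have h4 : ψ + 4 ≠ 0 := fun h0 => h (by linarith)
  have hdet : (ginv ψ).det = -((ψ + 4) ^ 2 / 4) := by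
    rw [ginv, Matrix.det_fin_two_of]; ring
  unfold metric
  rw [Matrix.inv_def, hdet]
  simp only [ginv, Matrix.adjugate_fin_two_of, Ring.inverse_eq_inv']
  simp [Matrix.mulVec, dotProduct, Fin.sum_univ_two]
  field_simp
  ring

lemma causal_iff {ψ : ℝ} (h : ψ ≠ -4) (V : ℝ × ℝ) :
    metric ψ V ≤ 0 ↔ 0 ≤ ((2 + ψ) * V.1 - V.2) * (2 * V.1 + V.2) := by
  have h4 : ψ + 4 ≠ 0 := fun h0 => h (by linarith)
  have hp : 0 < 4 / (ψ + 4) ^ 2 := by positivity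
  rw [metric_eq h]
  constructor
  · intro h1
    by_contra h2
    push Not at h2
    nlinarith
  · intro h1
    nlinarith

/-- The time component of a nonzero causal vector does not vanish. -/
lemma causal_fst_ne {ψ : ℝ} (h : ψ ≠ -4) {V : ℝ × ℝ} (hV : V ≠ 0) (hc : metric ψ V ≤ 0) :
    V.1 ≠ 0 := by
  intro h0
  rw [causal_iff h, h0] at hc
  have : V.2 = 0 := by nlinarith
  exact hV (Prod.ext h0 this)

end Pool.Agent.Q175.MG
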