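import Mathlib

/-! A thin neighbourhood of a line adapted to a speed bound. -/

set_option autoImplicit false

open Set Filter Topology
open scoped ContDiff

namespace Pool.Agent.Q175.MG

/-- Mean value inequality in comparison form. -/
lemma lip {g g' U U' : ℝ → ℝ} {a b c : ℝ} (hab : a ≤ b) (hg : ∀ s ∈ Icc a b, HasDerivAt g (g' s) s)
    (hU : ∀ s ∈ Icc a b, HasDerivAt U (U' s) s) (h : ∀ s ∈ Icc a b, |g' s| ≤ c * U' s) :
    |g b - g a| ≤ c * (U b - U a) := by
  have := image_norm_le_of_norm_deriv_right_le_deriv_boundary' (f := fun s => g s - g a)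
    (f' := g') (a := a) (b := b) (B := fun s => c * (U s - U a)) (B' := fun s => c * U' s)
    (fun s hs => ((hg s hs).continuousAt.sub continuousAt_const).continuousWithinAt)
    (fun s hs => ((hg s (Ico_subset_Icc_self hs)).sub_const _).hasDerivWithinAt)
    (by simp)
    (fun s hs => (((hU s hs).continuousAt.sub continuousAt_const).const_mul c).continuousWithinAt)
    (fun s hs => (((hU s (Ico_subset_Icc_self hs)).sub_const _).const_mul c).hasDerivWithinAt)
    (fun s hs => h s (Ico_subset_Icc_self hs)) (right_mem_Icc.mpr hab)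
  simpa using this

variable (S : ℝ → ℝ)

/-- the time coordinate of the slow clock -/
noncomputable def tau (x : ℝ) : ℝ := ∫ y in (0:ℝ)..x, 1 / (2 * S y)

noncomputable def bb (x : ℝ) : ℝ := 1 / (4 * S x * (1 + |x|))

noncomputable def del (x : ℝ) : ℝ := ⨅ y, (bb S y + |tau S x - tau S y|)

variable {S} (hS : Continuous S) (h4 : ∀ x, 4 ≤ S x)
include hS h4

lemma hasDerivAt_tau (x : ℝ) : HasDerivAt (tau S) (1 / (2 * S x)) x := by
  have hc : Continuous fun y => 1 / (2 * S y) :=
    continuous_const.div (continuous_const.mul hS) fun y => by have := h4 y; positivity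
  exact (hc.integral_hasStrictDerivAt 0 x).hasDerivAt

lemma tau_cont : Continuous (tau S) :=
  continuous_iff_continuousAt.mpr fun x => (hasDerivAt_tau hS h4 x).continuousAt

lemma tau_strictMono : StrictMono (tau S) := by
  apply strictMono_of_deriv_pos
  intro x
  rw [(hasDerivAt_tau hS h4 x).deriv]
  have := h4 x
  positivity

omit hS in
lemma bb_pos (x : ℝ) : 0 < bb S x := by
  have := h4 x
  unfold bb
  positivity

lemma bb_cont : Continuous (bb S) := by
  unfold bb
  refine continuous_const.div (by fun_prop) fun x => ?_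
  have := h4 x
  positivity

omit hS in
lemma bddBelow (x : ℝ) : BddBelow (range fun y => bb S y + |tau S x - tau S y|) :=
  ⟨0, by rintro _ ⟨y, rfl⟩; have := bb_pos h4 y; positivity⟩

omit hS in
lemma del_le (x : ℝ) : del S x ≤ bb S x := by
  have := ciInf_le (bddBelow h4 x) x
  simpa [del] using this

omit hS in
lemma del_lip_aux (x z : ℝ) : del S x ≤ del S z + |tau S x - tau S z| := by
  rw [← sub_le_iff_le_add]
  unfold del
  apply le_ciInf
  intro y
  have h1 := ciInf_le (bddBelow h4 x) y
  have h2 : |tau S x - tau S y| ≤ |tau S x - tau S z| + |tau S z - tau S y| := abs_sub_le _ _ _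
  linarith

omit hS in
lemma del_lip (x z : ℝ) : |del S x - del S z| ≤ |tau S x - tau S z| := by
  rw [abs_le]
  have h1 := del_lip_aux h4 x z
  have h2 := del_lip_aux h4 z x
  rw [abs_sub_comm] at h2
  constructor <;> linarith

lemma del_cont : Continuous (del S) := by
  rw [continuous_iff_continuousAt]
  intro x
  rw [ContinuousAt, tendsto_iff_norm_sub_tendsto_zero]
  have h1 : Tendsto (fun z => |tau S z - tau S x|) (𝓝 x) (𝓝 0) := by
    have : ContinuousAt (fun z => |tau S z - tau S x|) x :=
      ((tau_cont hS h4).continuousAt.sub continuousAt_const).abs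
    have h2 := this.tendsto
    simpa using h2
  exact squeeze_zero (fun _ => norm_nonneg _) (fun z => del_lip h4 z x) h1

lemma del_pos (x : ℝ) : 0 < del S x := by
  obtain ⟨z, -, hz⟩ := (isCompact_Icc (a := x - 1) (b := x + 1)).exists_isMinOn
    ⟨x, by constructor <;> linarith⟩ (bb_cont hS h4).continuousOn
  have hmono := tau_strictMono hS h4
  set m := min (bb S z) (min (tau S (x + 1) - tau S x) (tau S x - tau S (x - 1))) with hm
  have hmpos : 0 < m := by
    have a1 := hmono (show x < x + 1 by linarith)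
    have a2 := hmono (show x - 1 < x by linarith)
    have a3 := bb_pos h4 z
    simp only [hm, lt_min_iff]
    exact ⟨a3, by linarith, by linarith⟩
  refine lt_of_lt_of_le hmpos (le_ciInf fun y => ?_)
  have hb := bb_pos h4 y
  by_cases h1 : y < x - 1
  · have := hmono.monotone h1.le
    have h2 : m ≤ tau S x - tau S (x - 1) := (min_le_right _ _).trans (min_le_right _ _)
    have h3 := le_abs_self (tau S x - tau S y)
    linarith
  · by_cases h2 : x + 1 < y
    · have := hmono.monotone h2.le
      have h2 : m ≤ tau S (x + 1) - tau S x := (min_le_right _ _).trans (min_le_left _ _)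
      have h3 := neg_abs_le (tau S x - tau S y)
      linarith
    · push Not at h1 h2
      have h3 : bb S z ≤ bb S y := hz ⟨h1, h2⟩
      have h4 : m ≤ bb S z := min_le_left _ _
      have h5 := abs_nonneg (tau S x - tau S y)
      linarith

/-- A curve in the neighbourhood whose speed is at most `S` converges in it as `U` decreases. -/
lemma core {I : Set ℝ} (hI : I.OrdConnected) (hne : I.Nonempty) {U X U' X' : ℝ → ℝ}
    (hU : ∀ s ∈ I, HasDerivAt U (U' s) s) (hX : ∀ s ∈ I, HasDerivAt X (X' s) s)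
    (hU' : ∀ s ∈ I, 0 < U' s) (hXU : ∀ s ∈ I, |X' s| ≤ S (X s) * U' s) (hpos : ∀ s ∈ I, 0 < U s)
    (hlt : ∀ s ∈ I, U s < del S (X s)) :
    ∃ q : ℝ × ℝ, 0 ≤ q.1 ∧ q.1 < del S q.2 ∧
      Tendsto (fun s : I => (U s, X s)) atBot (𝓝 q) := by
  obtain ⟨s₀, hs₀⟩ := hne
  have : Nonempty I := ⟨⟨s₀, hs₀⟩⟩
  have hmono : ∀ a ∈ I, ∀ b ∈ I, a ≤ b → U a ≤ U b := by
    intro a ha b hb hab
    have hsub : Icc a b ⊆ I := hI.out ha hb
    have := lip (g := fun _ => (0:ℝ)) (g' := fun _ => 0) (c := 1) hab (fun s _ => hasDerivAt_const s 0)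
      (fun s hs => hU s (hsub hs)) (fun s hs => by simpa using (hU' s (hsub hs)).le)
    simp at this
    linarith
  have htau : ∀ a ∈ I, ∀ b ∈ I, a ≤ b → |tau S (X b) - tau S (X a)| ≤ 1 / 2 * (U b - U a) := by
    intro a ha b hb hab
    have hsub : Icc a b ⊆ I := hI.out ha hb
    refine lip (g := fun s => tau S (X s)) (g' := fun s => 1 / (2 * S (X s)) * X' s) hab
      (fun s hs => (hasDerivAt_tau hS h4 (X s)).comp s (hX s (hsub hs)))
      (fun s hs => hU s (hsub hs)) (fun s hs => ?_)
    have h1 := hXU s (hsub hs)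
    have h2 := h4 (X s)
    have h3 : 0 < S (X s) := by linarith
    rw [abs_mul, abs_of_pos (by positivity)]
    calc 1 / (2 * S (X s)) * |X' s| ≤ 1 / (2 * S (X s)) * (S (X s) * U' s) := by gcongr
      _ = 1 / 2 * U' s := by field_simp
  set η := del S (X s₀) - U s₀ with hη
  have hηpos : 0 < η := by have := hlt s₀ hs₀; linarith
  have hdel : ∀ a ∈ I, a ≤ s₀ → η + 1 / 2 * U s₀ + 1 / 2 * U a ≤ del S (X a) := by
    intro a ha hle
    have h1 := htau a ha s₀ hs₀ hle
    have h2 := del_lip h4 (X s₀) (X a)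
    have h3 := le_abs_self (del S (X s₀) - del S (X a))
    linarith
  have hbd : ∀ a ∈ I, a ≤ s₀ → |X a| ≤ 1 / η := by
    intro a ha hle
    have h1 := hdel a ha hle
    have h2 := del_le h4 (X a)
    have h3 := hpos a ha
    have h5 := hpos s₀ hs₀
    have h6 : η ≤ bb S (X a) := by linarith
    have h7 : bb S (X a) ≤ 1 / (1 + |X a|) := by
      unfold bb
      apply one_div_le_one_div_of_le (by positivity)
      have h8 := h4 (X a)
      have h9 := abs_nonneg (X a)
      nlinarith
    have h8 : η ≤ 1 / (1 + |X a|) := h6.trans h7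
    rw [le_div_iff₀ (by positivity)] at h8
    rw [le_div_iff₀ hηpos]
    nlinarith
  obtain ⟨M, hM⟩ := (isCompact_Icc (a := -(1/η)) (b := 1/η)).exists_bound_of_continuousOn hS.continuousOn
  have hM0 : 0 ≤ M := (norm_nonneg _).trans (hM 0 ⟨by simp; positivity, by positivity⟩)
  have hXlip : ∀ a ∈ I, ∀ b ∈ I, a ≤ b → b ≤ s₀ → |X b - X a| ≤ M * (U b - U a) := by
    intro a ha b hb hab hb0
    have hsub : Icc a b ⊆ I := hI.out ha hb
    refine lip hab (fun s hs => hX s (hsub hs)) (fun s hs => hU s (hsub hs)) (fun s hs => ?_)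
    refine (hXU s (hsub hs)).trans ?_
    have h1 := hbd s (hsub hs) (hs.2.trans hb0)
    have h2 := hM (X s) (abs_le.mp h1)
    exact mul_le_mul_of_nonneg_right ((le_abs_self _).trans h2) (hU' s (hsub hs)).le
  -- `U` converges
  have hUmono : Monotone (fun s : I => U s) := fun a b hab => hmono a a.2 b b.2 hab
  have hUbdd : BddBelow (range fun s : I => U s) := ⟨0, by rintro _ ⟨s, rfl⟩; exact (hpos s s.2).le⟩
  have hUlim : Tendsto (fun s : I => U s) atBot (𝓝 (⨅ s : I, U s)) := tendsto_atBot_ciInf hUmono hUbdd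
  set Ustar := ⨅ s : I, U s with hUs
  have hUs0 : 0 ≤ Ustar := le_ciInf fun s => (hpos s s.2).le
  have hUs1 : Ustar ≤ U s₀ := ciInf_le hUbdd ⟨s₀, hs₀⟩
  -- `X` converges
  have hcauchy : Cauchy (map (fun s : I => X s) atBot) := by
    rw [Metric.cauchy_iff]
    refine ⟨inferInstance, fun ε hε => ?_⟩
    have hev : ∀ᶠ s : I in atBot, U s < Ustar + ε / (2 * (M + 1)) :=
      hUlim.eventually (Iio_mem_nhds (by linarith [show 0 < ε / (2 * (M + 1)) by positivity]))
    have hev2 : ∀ᶠ s : I in atBot, s ≤ ⟨s₀, hs₀⟩ := eventually_le_atBot _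
    obtain ⟨s1, hs1⟩ := (hev.and hev2).exists
    have hs1' := hs1.2
    refine ⟨(fun s : I => X s) '' Iic s1, image_mem_map (Iic_mem_atBot s1), ?_⟩
    have hkey : ∀ s : I, s ≤ s1 → |X s1 - X s| < ε / 2 := by
      intro s hs
      have h1 := hXlip s s.2 s1 s1.2 hs hs1'
      have h2 : Ustar ≤ U s := ciInf_le hUbdd s
      have h3 : U s1 - U s < ε / (2 * (M + 1)) := by linarith [hs1.1]
      have h5 : 0 ≤ U s1 - U s := by have := hUmono hs; linarith
      calc |X s1 - X s| ≤ M * (U s1 - U s) := h1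
        _ ≤ (M + 1) * (U s1 - U s) := by nlinarith
        _ < (M + 1) * (ε / (2 * (M + 1))) := by gcongr
        _ = ε / 2 := by field_simp
    rintro _ ⟨a, ha, rfl⟩ _ ⟨b, hb, rfl⟩
    rw [Real.dist_eq]
    have h1 := hkey a ha
    have h2 := hkey b hb
    have h3 : X a - X b = (X s1 - X b) - (X s1 - X a) := by ring
    simp only
    rw [h3]
    refine (abs_sub _ _).trans_lt ?_
    linarith
  obtain ⟨Xstar, hXlim⟩ := cauchy_map_iff_exists_tendsto.mp hcauchy
  refine ⟨(Ustar, Xstar), hUs0, ?_, hUlim.prodMk_nhds hXlim⟩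
  have hdlim : Tendsto (fun s : I => del S (X s)) atBot (𝓝 (del S Xstar)) :=
    ((del_cont hS h4).tendsto _).comp hXlim
  have hge : η + 1 / 2 * U s₀ + 1 / 2 * Ustar ≤ del S Xstar := by
    refine ge_of_tendsto hdlim ?_
    filter_upwards [eventually_le_atBot (⟨s₀, hs₀⟩ : I)] with s hs
    have h1 := hdel s s.2 hs
    have h2 : Ustar ≤ U s := ciInf_le hUbdd s
    linarith
  change Ustar < del S Xstar
  linarith

end Pool.Agent.Q175.MG
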