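import Pool.Agent.Q175.MG.Loc
import Pool.Agent.Q175.MG.Comp

/-! Existence of a globally hyperbolic development. -/

set_option autoImplicit false

open Set Filter Topology
open scoped ContDiff

namespace Pool.Agent.Q175.MG

variable {f : ℝ → ℝ}

noncomputable def WW (f : ℝ → ℝ) (a : ℝ) : ℝ := Real.log (4 + f a)

noncomputable def VV (f : ℝ → ℝ) (x : ℝ) : ℝ := ∫ y in (0:ℝ)..x, WW f y

noncomputable def Sol (φ₀ f : ℝ → ℝ) (p : ℝ × ℝ) : ℝ :=
  φ₀ (p.2 + 2 * p.1) + f (A f p) * p.1 - WW f (A f p) * (p.2 + 2 * p.1 - A f p) - VV f (A f p) +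
    VV f (p.2 + 2 * p.1)

lemma WW_smooth (hf : ContDiff ℝ ∞ f) (hne : ∀ x, f x ≠ -4) : ContDiff ℝ ∞ (WW f) :=
  (contDiff_const.add hf).log fun x h => hne x (by linarith)

lemma hasDerivAt_WW (hf : ContDiff ℝ ∞ f) (hne : ∀ x, f x ≠ -4) (a : ℝ) :
    HasDerivAt (WW f) (deriv f a / (4 + f a)) a := by
  have h1 : HasDerivAt (fun a => 4 + f a) (deriv f a) a :=
    ((hf.differentiable (by simp) a).hasDerivAt).const_add 4
  exact h1.log fun h => hne a (by linarith)

lemma hasDerivAt_VV (hf : ContDiff ℝ ∞ f) (hne : ∀ x, f x ≠ -4) (x : ℝ) :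
    HasDerivAt (VV f) (WW f x) x :=
  ((WW_smooth hf hne).continuous.integral_hasStrictDerivAt 0 x).hasDerivAt

lemma VV_smooth (hf : ContDiff ℝ ∞ f) (hne : ∀ x, f x ≠ -4) : ContDiff ℝ ∞ (VV f) := by
  rw [contDiff_infty_iff_deriv]
  refine ⟨fun x => (hasDerivAt_VV hf hne x).differentiableAt, ?_⟩
  have : deriv (VV f) = WW f := funext fun x => (hasDerivAt_VV hf hne x).deriv
  rw [this]
  exact WW_smooth hf hne

lemma Sol_smooth {φ₀ : ℝ → ℝ} (h0 : ContDiff ℝ ∞ φ₀) (hf : ContDiff ℝ ∞ f) (hne : ∀ x, f x ≠ -4) :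
    ContDiffOn ℝ ∞ (Sol φ₀ f) (Om f) := by
  have hA := A_smooth hf
  have hξ : ContDiffOn ℝ ∞ (fun p : ℝ × ℝ => p.2 + 2 * p.1) (Om f) := by fun_prop
  have h1 : ContDiffOn ℝ ∞ (fun p : ℝ × ℝ => p.1) (Om f) := contDiffOn_fst
  have a1 : ContDiffOn ℝ ∞ (fun p : ℝ × ℝ => φ₀ (p.2 + 2 * p.1)) (Om f) := h0.comp_contDiffOn hξ
  have a2 : ContDiffOn ℝ ∞ (fun p : ℝ × ℝ => f (A f p)) (Om f) := hf.comp_contDiffOn hA
  have a3 : ContDiffOn ℝ ∞ (fun p : ℝ × ℝ => WW f (A f p)) (Om f) := (WW_smooth hf hne).comp_contDiffOn hA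
  have a4 : ContDiffOn ℝ ∞ (fun p : ℝ × ℝ => VV f (A f p)) (Om f) := (VV_smooth hf hne).comp_contDiffOn hA
  have a5 : ContDiffOn ℝ ∞ (fun p : ℝ × ℝ => VV f (p.2 + 2 * p.1)) (Om f) := (VV_smooth hf hne).comp_contDiffOn hξ
  exact (((a1.add (a2.mul h1)).sub (a3.mul (hξ.sub hA))).sub a4).add a5

lemma A_deriv (hf : ContDiff ℝ ∞ f) {p : ℝ × ℝ} (hp : p ∈ Om f) (v : ℝ × ℝ) :
    fderiv ℝ (A f) p v * (1 + deriv f (A f p) * p.1) + (2 + f (A f p)) * v.1 = v.2 := by
  have hA : HasFDerivAt (A f) (fderiv ℝ (A f) p) p :=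
    (((A_smooth hf).contDiffAt ((Om_open hf).mem_nhds hp)).differentiableAt (by simp)).hasFDerivAt
  have h1 : HasFDerivAt (fun q : ℝ × ℝ => q.1) (ContinuousLinearMap.fst ℝ ℝ ℝ) p := hasFDerivAt_fst
  have h2 : HasFDerivAt (fun q : ℝ × ℝ => q.2) (ContinuousLinearMap.snd ℝ ℝ ℝ) p := hasFDerivAt_snd
  have h3 : HasDerivAt f (deriv f (A f p)) (A f p) := (hf.differentiable (by simp) _).hasDerivAt
  have h4 := (h3.comp_hasFDerivAt p hA).const_add 2
  have h5 := (hA.add (h4.mul h1)).sub h2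
  have h6 : (fun q : ℝ × ℝ => (0:ℝ)) =ᶠ[𝓝 p] fun q => A f q + (2 + f (A f q)) * q.1 - q.2 := by
    filter_upwards [(Om_open hf).mem_nhds hp] with q hq
    rw [(A_spec hf hq).2, sub_self]
  have h7 := (h5.congr_of_eventuallyEq h6).unique (hasFDerivAt_const (0:ℝ) p)
  have h8 := congrArg (fun L : ℝ × ℝ →L[ℝ] ℝ => L v) h7
  simp at h8
  linarith

lemma psi_sol {φ₀ : ℝ → ℝ} (h0 : ContDiff ℝ ∞ φ₀) (hf : ContDiff ℝ ∞ f) (hne : ∀ x, f x ≠ -4)
    {p : ℝ × ℝ} (hp : p ∈ Om f) : Psi (Sol φ₀ f) p = f (A f p) := by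
  have hS : HasFDerivAt (Sol φ₀ f) (fderiv ℝ (Sol φ₀ f) p) p :=
    (((Sol_smooth h0 hf hne).contDiffAt ((Om_open hf).mem_nhds hp)).differentiableAt (by simp)).hasFDerivAt
  have hA : HasFDerivAt (A f) (fderiv ℝ (A f) p) p :=
    (((A_smooth hf).contDiffAt ((Om_open hf).mem_nhds hp)).differentiableAt (by simp)).hasFDerivAt
  set c : ℝ → ℝ × ℝ := fun s => (p.1 + s, p.2 - 2 * s) with hc
  have hc0 : c 0 = p := by apply Prod.ext <;> simp [hc]
  have hcd : HasDerivAt c (1, -2) 0 := by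
    have a : HasDerivAt (fun s : ℝ => p.1 + s) 1 0 := (hasDerivAt_id (0:ℝ)).const_add p.1
    have b : HasDerivAt (fun s : ℝ => p.2 - 2 * s) (-2) 0 := by
      simpa using ((hasDerivAt_id (0:ℝ)).const_mul 2).const_sub p.2
    exact a.prodMk b
  have hα : HasDerivAt (fun s => A f (c s)) (fderiv ℝ (A f) p (1, -2)) 0 := by
    have hA' : HasFDerivAt (A f) (fderiv ℝ (A f) p) (c 0) := by rw [hc0]; exact hA
    exact hA'.comp_hasDerivAt 0 hcd
  set D := fderiv ℝ (A f) p (1, -2) with hD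
  have hrel := A_deriv hf hp (1, -2)
  rw [← hD] at hrel
  simp only at hrel
  have hspec := (A_spec hf hp).2
  -- the derivative along the incoming line
  have k1 : HasDerivAt (fun s => f (A f (c s))) (deriv f (A f p) * D) 0 := by
    have h3 : HasDerivAt f (deriv f (A f p)) (A f (c 0)) := by
      rw [hc0]; exact (hf.differentiable (by simp) _).hasDerivAt
    exact h3.comp 0 hα
  have k2 : HasDerivAt (fun s => WW f (A f (c s))) (deriv f (A f p) / (4 + f (A f p)) * D) 0 := by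
    have h3 : HasDerivAt (WW f) (deriv f (A f p) / (4 + f (A f p))) (A f (c 0)) := by
      rw [hc0]; exact hasDerivAt_WW hf hne _
    exact HasDerivAt.comp (h₂ := WW f) (h := fun s => A f (c s)) 0 h3 hα
  have k3 : HasDerivAt (fun s => VV f (A f (c s))) (WW f (A f p) * D) 0 := by
    have h3 : HasDerivAt (VV f) (WW f (A f p)) (A f (c 0)) := by
      rw [hc0]; exact hasDerivAt_VV hf hne _
    exact h3.comp 0 hα
  have k4 : HasDerivAt (fun s : ℝ => p.1 + s) 1 0 := (hasDerivAt_id (0:ℝ)).const_add p.1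
  have hξ : ∀ s, (c s).2 + 2 * (c s).1 = p.2 + 2 * p.1 := by intro s; simp only [hc]; ring
  have htot : HasDerivAt (fun s => Sol φ₀ f (c s))
      (deriv f (A f p) * D * p.1 + f (A f p) - (deriv f (A f p) / (4 + f (A f p)) * D *
        (p.2 + 2 * p.1 - A f p) - WW f (A f p) * D) - WW f (A f p) * D) 0 := by
    have e : (fun s => Sol φ₀ f (c s)) = fun s => φ₀ (p.2 + 2 * p.1) + f (A f (c s)) * (p.1 + s) -
        WW f (A f (c s)) * (p.2 + 2 * p.1 - A f (c s)) - VV f (A f (c s)) + VV f (p.2 + 2 * p.1) := by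
      funext s
      unfold Sol
      rw [hξ s]
    rw [e]
    have := ((((k1.mul k4).const_add (φ₀ (p.2 + 2 * p.1))).sub (k2.mul (hα.const_sub (p.2 + 2 * p.1)))).sub k3).add_const
      (VV f (p.2 + 2 * p.1))
    refine this.congr_deriv ?_
    rw [hc0]
    ring
  have hS' : HasFDerivAt (Sol φ₀ f) (fderiv ℝ (Sol φ₀ f) p) (c 0) := by rw [hc0]; exact hS
  have h5 := (hS'.comp_hasDerivAt 0 hcd).unique htot
  rw [fderiv_split] at h5
  have h4 : 4 + f (A f p) ≠ 0 := fun h => hne (A f p) (by linarith)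
  unfold Psi
  have h6 : p.2 + 2 * p.1 - A f p = (4 + f (A f p)) * p.1 := by linarith
  rw [h6] at h5
  have h7 : deriv f (A f p) / (4 + f (A f p)) * D * ((4 + f (A f p)) * p.1) = deriv f (A f p) * D * p.1 := by
    field_simp
  rw [h7] at h5
  linarith

/-- `{t = 0}` is a Cauchy hypersurface of the thin neighbourhood. -/
lemma Om_cauchy (hf : ContDiff ℝ ∞ f) {Ψ : ℝ × ℝ → ℝ} (hΨ : ∀ p ∈ Om f, |Ψ p| + 4 ≤ spd f p.2)
    (hne : ∀ p ∈ Om f, Ψ p ≠ -4) : IsCauchy (Om f) Ψ := by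
  intro I γ hγ hin
  have hS := spd_cont hf
  have h4 := spd_four hf
  -- components
  have hdiff : ∀ x ∈ I, HasDerivAt γ (deriv γ x) x := fun x hx =>
    ((hγ.c1.contDiffAt (hγ.isOpen.mem_nhds hx)).differentiableAt (by norm_num)).hasDerivAt
  have hT : ∀ x ∈ I, HasDerivAt (fun s => (γ s).1) (deriv γ x).1 x := fun x hx =>
    (hasFDerivAt_fst (𝕜 := ℝ) (p := γ x)).comp_hasDerivAt x (hdiff x hx)
  have hX : ∀ x ∈ I, HasDerivAt (fun s => (γ s).2) (deriv γ x).2 x := fun x hx =>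
    (hasFDerivAt_snd (𝕜 := ℝ) (p := γ x)).comp_hasDerivAt x (hdiff x hx)
  have hT0 : ∀ x ∈ I, (deriv γ x).1 ≠ 0 := fun x hx =>
    causal_fst_ne (hne _ (hγ.mem x hx)) (hγ.causal x hx).1 (hγ.causal x hx).2
  have hspeed : ∀ x ∈ I, |(deriv γ x).2| ≤ spd f (γ x).2 * |(deriv γ x).1| := by
    intro x hx
    have h1 := (causal_iff (hne _ (hγ.mem x hx)) _).mp (hγ.causal x hx).2
    have h2 := hΨ _ (hγ.mem x hx)
    set V := deriv γ x
    set ψ := Ψ (γ x)
    set s := spd f (γ x).2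
    have hb1 : |2 + ψ| ≤ s := by
      refine (abs_add_le _ _).trans ?_
      rw [abs_of_pos (by norm_num : (0:ℝ) < 2)]
      linarith
    have hb2 : (2:ℝ) ≤ s := by have := abs_nonneg ψ; linarith
    have hb1' := abs_le.mp hb1
    rcases le_total 0 V.1 with hv | hv
    · rw [abs_of_nonneg hv, abs_le]
      rcases nonneg_and_nonneg_or_nonpos_and_nonpos_of_mul_nonneg h1 with ⟨a, b⟩ | ⟨a, b⟩
      · constructor <;> nlinarith
      · constructor <;> nlinarith
    · rw [abs_of_nonpos hv, abs_le]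
      rcases nonneg_and_nonneg_or_nonpos_and_nonpos_of_mul_nonneg h1 with ⟨a, b⟩ | ⟨a, b⟩
      · constructor <;> nlinarith
      · constructor <;> nlinarith
  -- constant signs
  have hpre : IsPreconnected I := hγ.ordConnected.isPreconnected
  have sgn : ∀ g : ℝ → ℝ, ContinuousOn g I → (∀ s ∈ I, g s ≠ 0) →
      (∀ s ∈ I, 0 < g s) ∨ (∀ s ∈ I, g s < 0) := by
    intro g hg hg0
    by_contra hcon
    push Not at hcon
    obtain ⟨⟨a, ha, ha'⟩, b, hb, hb'⟩ := hcon
    obtain ⟨z, hz, hz'⟩ := hpre.intermediate_value ha hb hg ⟨ha', hb'⟩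
    exact hg0 z hz hz'
  have hTc : ContinuousOn (fun s => (γ s).1) I := continuous_fst.comp_continuousOn hγ.c1.continuousOn
  have hT'c : ContinuousOn (fun s => (deriv γ s).1) I := by
    have : ContinuousOn (deriv γ) I := hγ.c1.continuousOn_deriv_of_isOpen hγ.isOpen (by norm_num)
    exact continuous_fst.comp_continuousOn this
  suffices hex : ∃ s ∈ I, (γ s).1 = 0 by
    obtain ⟨s, hs, hs0⟩ := hex
    refine ⟨s, ⟨hs, hs0⟩, ?_⟩
    rintro s' ⟨hs', hs'0⟩
    exact unique_zero hne hγ hs' hs (by rw [hs'0, hs0])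
  by_contra hcon
  push Not at hcon
  have hmem : ∀ s ∈ I, |(γ s).1| < del (spd f) (γ s).2 := fun s hs => hγ.mem s hs
  -- from the core lemma: the increasing case
  have corebot : ∀ ε : ℝ, (ε = 1 ∨ ε = -1) → (∀ s ∈ I, 0 < ε * (γ s).1) →
      (∀ s ∈ I, 0 < ε * (deriv γ s).1) → False := by
    intro ε hε h1 h2
    have habs : ∀ x : ℝ, 0 < ε * x → |x| = ε * x := by
      intro x hx
      rcases hε with h | h <;> subst h
      · rw [abs_of_pos (by linarith)]; ring
      · rw [abs_of_neg (by linarith)]; ring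
    obtain ⟨q, hq0, hq1, hq2⟩ := core hS h4 hγ.ordConnected hγ.nonempty
      (U := fun s => ε * (γ s).1) (X := fun s => (γ s).2) (U' := fun s => ε * (deriv γ s).1)
      (X' := fun s => (deriv γ s).2) (fun s hs => (hT s hs).const_mul ε) hX h2
      (fun s hs => by rw [← habs _ (h2 s hs)]; exact hspeed s hs) h1
      (fun s hs => by rw [← habs _ (h1 s hs)]; exact hmem s hs)
    have hεε : ε * ε = 1 := by rcases hε with h | h <;> subst h <;> norm_num
    refine hin.2 ⟨(ε * q.1, q.2), ?_, ?_⟩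
    · change |ε * q.1| < _
      rw [abs_mul, abs_of_nonneg hq0]
      rcases hε with h | h <;> subst h <;> simpa using hq1
    · have h5 := (hq2.fst_nhds.const_mul ε).prodMk_nhds hq2.snd_nhds
      refine h5.congr fun s => ?_
      apply Prod.ext
      · change ε * (ε * (γ s).1) = (γ s).1
        rw [← mul_assoc, hεε, one_mul]
      · rfl
  have coretop : ∀ ε : ℝ, (ε = 1 ∨ ε = -1) → (∀ s ∈ I, 0 < ε * (γ s).1) →
      (∀ s ∈ I, 0 < -ε * (deriv γ s).1) → False := by
    intro ε hε h1 h2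
    have habs : ∀ x : ℝ, 0 < ε * x → |x| = ε * x := by
      intro x hx
      rcases hε with h | h <;> subst h
      · rw [abs_of_pos (by linarith)]; ring
      · rw [abs_of_neg (by linarith)]; ring
    have habs' : ∀ x : ℝ, 0 < -ε * x → |x| = -ε * x := by
      intro x hx
      rcases hε with h | h <;> subst h
      · rw [abs_of_neg (by linarith)]; ring
      · rw [abs_of_pos (by linarith)]; ring
    set I' : Set ℝ := {s | -s ∈ I} with hI'
    have hI'o : I'.OrdConnected := by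
      constructor
      intro a ha b hb c hc
      exact hγ.ordConnected.out hb ha ⟨by linarith [hc.2], by linarith [hc.1]⟩
    obtain ⟨s₀, hs₀⟩ := hγ.nonempty
    have hI'n : I'.Nonempty := ⟨-s₀, by change - -s₀ ∈ I; simpa using hs₀⟩
    have hneg : ∀ s : ℝ, HasDerivAt (fun s : ℝ => -s) (-1) s := fun s => hasDerivAt_neg s
    obtain ⟨q, hq0, hq1, hq2⟩ := core hS h4 hI'o hI'n
      (U := fun s => ε * (γ (-s)).1) (X := fun s => (γ (-s)).2)
      (U' := fun s => -ε * (deriv γ (-s)).1)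
      (X' := fun s => -(deriv γ (-s)).2)
      (fun s hs => by
        refine (((hT (-s) hs).comp s (hneg s)).const_mul ε).congr_deriv ?_
        ring)
      (fun s hs => by
        refine ((hX (-s) hs).comp s (hneg s)).congr_deriv ?_
        ring)
      (fun s hs => h2 (-s) hs)
      (fun s hs => by rw [← habs' _ (h2 (-s) hs), abs_neg]; exact hspeed (-s) hs)
      (fun s hs => h1 (-s) hs)
      (fun s hs => by rw [← habs _ (h1 (-s) hs)]; exact hmem (-s) hs)
    have hεε : ε * ε = 1 := by rcases hε with h | h <;> subst h <;> norm_num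
    refine hin.1 ⟨(ε * q.1, q.2), ?_, ?_⟩
    · change |ε * q.1| < _
      rw [abs_mul, abs_of_nonneg hq0]
      rcases hε with h | h <;> subst h <;> simpa using hq1
    · have h5 := (hq2.fst_nhds.const_mul ε).prodMk_nhds hq2.snd_nhds
      have : Nonempty I := ⟨⟨s₀, hs₀⟩⟩
      have hmap : Tendsto (fun s : I => (⟨-(s:ℝ), by change - -(s:ℝ) ∈ I; simp⟩ : I')) atTop atBot := by
        rw [tendsto_atTop_atBot]
        intro b
        refine ⟨⟨-(b:ℝ), b.2⟩, fun a ha => ?_⟩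
        have h6 : -(b:ℝ) ≤ a := ha
        change -(a:ℝ) ≤ b
        linarith
      refine (h5.comp hmap).congr fun s => ?_
      apply Prod.ext
      · simp only [Function.comp_apply, neg_neg]
        rw [← mul_assoc, hεε, one_mul]
      · simp only [Function.comp_apply, neg_neg]
  rcases sgn _ hTc hcon with a | a <;> rcases sgn _ hT'c hT0 with b | b
  · exact corebot 1 (Or.inl rfl) (fun s hs => by have := a s hs; linarith) (fun s hs => by have := b s hs; linarith)
  · exact coretop 1 (Or.inl rfl) (fun s hs => by have := a s hs; linarith) (fun s hs => by have := b s hs; linarith)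
  · exact coretop (-1) (Or.inr rfl) (fun s hs => by have := a s hs; linarith) (fun s hs => by have := b s hs; linarith)
  · exact corebot (-1) (Or.inr rfl) (fun s hs => by have := a s hs; linarith) (fun s hs => by have := b s hs; linarith)

/-- Existence of a globally hyperbolic development. -/
theorem exists_GHD {φ₀ φ₁ : ℝ → ℝ} (h0 : ContDiff ℝ ∞ φ₀) (h1 : ContDiff ℝ ∞ φ₁)
    (hne : ∀ x, φ₁ x - 2 * deriv φ₀ x ≠ -4) : ∃ Ω Φ, IsGHD φ₀ φ₁ Ω Φ := by
  set f : ℝ → ℝ := fun x => φ₁ x - 2 * deriv φ₀ x with hfdef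
  have hf : ContDiff ℝ ∞ f := by
    have : ContDiff ℝ ∞ (deriv φ₀) := (contDiff_infty_iff_deriv.mp h0).2
    exact h1.sub (contDiff_const.mul this)
  have hΩ := Om_open hf
  have hsm := Sol_smooth h0 hf hne
  have hψ : ∀ p ∈ Om f, Psi (Sol φ₀ f) p = f (A f p) := fun p hp => psi_sol h0 hf hne hp
  have hne' : ∀ p ∈ Om f, Psi (Sol φ₀ f) p ≠ -4 := fun p hp => by rw [hψ p hp]; exact hne _
  have hinit : ∀ x, Sol φ₀ f (0, x) = φ₀ x := by
    intro x
    unfold Sol
    rw [A_init hf]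
    simp
  refine ⟨Om f, Sol φ₀ f, hΩ, Om_line hf, hsm, ?_, hinit, ?_, hne', ?_⟩
  · intro p hp
    have hb := burgers hΩ hsm hp
    have hev : Psi (Sol φ₀ f) =ᶠ[𝓝 p] fun q => f (A f q) := by
      filter_upwards [hΩ.mem_nhds hp] with q hq
      exact hψ q hq
    have hA : HasFDerivAt (A f) (fderiv ℝ (A f) p) p :=
      (((A_smooth hf).contDiffAt (hΩ.mem_nhds hp)).differentiableAt (by simp)).hasFDerivAt
    have h3 : HasDerivAt f (deriv f (A f p)) (A f p) := (hf.differentiable (by simp) _).hasDerivAt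
    have h4 := h3.comp_hasFDerivAt p hA
    have h5 : ∀ v, fderiv ℝ (Psi (Sol φ₀ f)) p v = deriv f (A f p) * fderiv ℝ (A f) p v := by
      intro v
      rw [hev.fderiv_eq]
      have := h4.fderiv
      rw [Function.comp_def] at this
      rw [this]
      simp
    have e1 := A_deriv hf hp (1, 0)
    have e2 := A_deriv hf hp (0, 1)
    have hj := (jac_pos hf hp).ne'
    simp only [mul_one, mul_zero, add_zero] at e1 e2
    have e3 : fderiv ℝ (A f) p (1, 0) + (2 + f (A f p)) * fderiv ℝ (A f) p (0, 1) = 0 := by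
      have : (fderiv ℝ (A f) p (1, 0) + (2 + f (A f p)) * fderiv ℝ (A f) p (0, 1)) *
          (1 + deriv f (A f p) * p.1) = 0 := by
        linear_combination e1 + (2 + f (A f p)) * e2
      exact (mul_eq_zero.mp this).resolve_right hj
    have e4 : dt (Psi (Sol φ₀ f)) p + (2 + Psi (Sol φ₀ f) p) * dx (Psi (Sol φ₀ f)) p = 0 := by
      unfold dt dx
      rw [h5, h5, hψ p hp]
      linear_combination deriv f (A f p) * e3
    rw [e4] at hb
    linarith
  · intro x
    have h2 := hψ _ (Om_line hf x)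
    rw [A_init hf] at h2
    have h3 : HasFDerivAt (Sol φ₀ f) (fderiv ℝ (Sol φ₀ f) (0, x)) (0, x) :=
      ((hsm.contDiffAt (hΩ.mem_nhds (Om_line hf x))).differentiableAt (by simp)).hasFDerivAt
    have h4 : HasDerivAt (fun y : ℝ => ((0 : ℝ), y)) ((0 : ℝ), (1 : ℝ)) x :=
      (hasDerivAt_const x (0:ℝ)).prodMk (hasDerivAt_id x)
    have h5 : HasDerivAt (fun y => Sol φ₀ f (0, y)) (dx (Sol φ₀ f) (0, x)) x := h3.comp_hasDerivAt x h4
    have h6 : (fun y => Sol φ₀ f (0, y)) = φ₀ := funext hinit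
    rw [h6] at h5
    unfold Psi at h2
    rw [← h5.deriv] at h2
    simp only [hfdef] at h2
    linarith
  · apply Om_cauchy hf _ hne'
    intro p hp
    rw [hψ p hp]
    have := spd_bound hf (A_spec hf hp).1
    have h2 := abs_nonneg (deriv f (A f p))
    linarith

end Pool.Agent.Q175.MG
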