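import Pool.Agent.Q175.MG.Burg
import Pool.Agent.Q175.MG.Delta

/-! A local solution by characteristics. -/

set_option autoImplicit false

open Set Filter Topology
open scoped ContDiff

namespace Pool.Agent.Q175.MG

variable (f : ℝ → ℝ)

/-- a speed bound -/
noncomputable def spd (x : ℝ) : ℝ :=
  4 + sSup ((fun a => |f (x + a)| + |deriv f (x + a)|) '' Icc (-1) 1)

variable {f} (hf : ContDiff ℝ ∞ f)
include hf

lemma df_cont : Continuous (deriv f) := hf.continuous_deriv (by simp)

lemma fd_cont (x : ℝ) : Continuous (fun a => |f (x + a)| + |deriv f (x + a)|) := by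
  have h1 := hf.continuous
  have h2 := df_cont hf
  fun_prop

lemma spd_cont : Continuous (spd f) := by
  have h1 := hf.continuous
  have h2 := df_cont hf
  unfold spd
  refine continuous_const.add (IsCompact.continuous_sSup (f := fun x a => |f (x + a)| + |deriv f (x + a)|) isCompact_Icc ?_)
  change Continuous (fun p : ℝ × ℝ => |f (p.1 + p.2)| + |deriv f (p.1 + p.2)|)
  fun_prop

lemma spd_bound {x a : ℝ} (h : |a - x| ≤ 1) : |f a| + |deriv f a| + 4 ≤ spd f x := by
  have hb : BddAbove ((fun a => |f (x + a)| + |deriv f (x + a)|) '' Icc (-1) 1) :=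
    isCompact_Icc.bddAbove_image (fd_cont hf x).continuousOn
  have hm : a - x ∈ Icc (-1 : ℝ) 1 := abs_le.mp h
  have := le_csSup hb (mem_image_of_mem _ hm)
  simp only [add_sub_cancel] at this
  unfold spd
  linarith

lemma spd_four (x : ℝ) : 4 ≤ spd f x := by
  have := spd_bound hf (x := x) (a := x) (by simp)
  have h1 := abs_nonneg (f x)
  have h2 := abs_nonneg (deriv f x)
  linarith

omit hf in
variable (f) in
/-- the neighbourhood -/
def Om : Set (ℝ × ℝ) := {p | |p.1| < del (spd f) p.2}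

lemma Om_open : IsOpen (Om f) :=
  isOpen_lt (continuous_abs.comp continuous_fst) ((del_cont (spd_cont hf) (spd_four hf)).comp continuous_snd)

lemma Om_small {p : ℝ × ℝ} (hp : p ∈ Om f) : |p.1| * spd f p.2 < 1 / 4 := by
  have h1 : |p.1| < del (spd f) p.2 := hp
  have h2 := del_le (spd_four hf) p.2
  have h3 : bb (spd f) p.2 ≤ 1 / (4 * spd f p.2) := by
    have := spd_four hf p.2
    unfold bb
    apply one_div_le_one_div_of_le (by positivity)
    have := abs_nonneg p.2
    nlinarith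
  have h4 := spd_four hf p.2
  have h5 : |p.1| < 1 / (4 * spd f p.2) := by linarith
  rw [lt_div_iff₀ (by positivity)] at h5
  linarith

lemma exA {p : ℝ × ℝ} (hp : p ∈ Om f) : ∃ a, |a - p.2| ≤ 1 ∧ a + (2 + f a) * p.1 = p.2 := by
  have hs := Om_small hf hp
  have hG : ContinuousOn (fun a => a + (2 + f a) * p.1) (Icc (p.2 - 1) (p.2 + 1)) := by
    have h1 := hf.continuous
    fun_prop
  have hb : ∀ a, |a - p.2| ≤ 1 → |(2 + f a) * p.1| ≤ 1 / 4 := by
    intro a ha
    have h1 := spd_bound hf ha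
    have h2 : |2 + f a| ≤ spd f p.2 := by
      refine (abs_add_le _ _).trans ?_
      have := abs_nonneg (deriv f a)
      rw [abs_of_pos (by norm_num : (0:ℝ) < 2)]
      linarith
    rw [abs_mul]
    calc |2 + f a| * |p.1| ≤ spd f p.2 * |p.1| := by gcongr
      _ ≤ 1 / 4 := by linarith
  have h1 := intermediate_value_Icc (by linarith) hG
  have h2 : p.2 ∈ Icc ((p.2 - 1) + (2 + f (p.2 - 1)) * p.1) ((p.2 + 1) + (2 + f (p.2 + 1)) * p.1) := by
    have a1 := abs_le.mp (hb (p.2 - 1) (by simp))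
    have a2 := abs_le.mp (hb (p.2 + 1) (by simp))
    constructor <;> linarith
  obtain ⟨a, ha, ha2⟩ := h1 h2
  exact ⟨a, abs_le.mpr ⟨by linarith [ha.1], by linarith [ha.2]⟩, ha2⟩

lemma uniqA {p : ℝ × ℝ} (hp : p ∈ Om f) {a b : ℝ} (ha : |a - p.2| ≤ 1) (hb : |b - p.2| ≤ 1)
    (ha2 : a + (2 + f a) * p.1 = p.2) (hb2 : b + (2 + f b) * p.1 = p.2) : a = b := by
  have key : ∀ a b : ℝ, |a - p.2| ≤ 1 → |b - p.2| ≤ 1 → a + (2 + f a) * p.1 = p.2 →
      b + (2 + f b) * p.1 = p.2 → ¬ a < b := by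
    intro a b ha hb ha2 hb2 hlt
    have ha' := abs_le.mp ha
    have hb' := abs_le.mp hb
    have h1 := lip (g := f) (g' := deriv f) (U := fun s => s) (U' := fun _ => 1) (c := spd f p.2) hlt.le
      (fun s _ => (hf.differentiable (by simp) s).hasDerivAt) (fun s _ => hasDerivAt_id s)
      (fun s hs => by
        have := spd_bound hf (x := p.2) (a := s) (abs_le.mpr ⟨by linarith [hs.1], by linarith [hs.2]⟩)
        have h2 := abs_nonneg (f s)
        linarith)
    have h2 := Om_small hf hp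
    have h3 : b - a = -((f b - f a) * p.1) := by linarith
    have h4 : b - a ≤ |f b - f a| * |p.1| := by
      rw [h3, ← abs_mul, ← abs_neg]
      exact le_abs_self _
    have h5 : |f b - f a| * |p.1| ≤ spd f p.2 * (b - a) * |p.1| := by gcongr
    nlinarith
  rcases lt_trichotomy a b with h | h | h
  · exact absurd h (key a b ha hb ha2 hb2)
  · exact h
  · exact absurd h (key b a hb ha hb2 ha2)

open Classical in
omit hf in
variable (f) in
/-- the foot of the outgoing characteristic through `p` -/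
noncomputable def A (p : ℝ × ℝ) : ℝ :=
  if h : ∃ a, |a - p.2| ≤ 1 ∧ a + (2 + f a) * p.1 = p.2 then h.choose else 0

lemma A_spec {p : ℝ × ℝ} (hp : p ∈ Om f) : |A f p - p.2| ≤ 1 ∧ A f p + (2 + f (A f p)) * p.1 = p.2 := by
  have h := exA hf hp
  unfold A
  rw [dif_pos h]
  exact h.choose_spec

lemma A_lt {p : ℝ × ℝ} (hp : p ∈ Om f) : |A f p - p.2| < 1 := by
  obtain ⟨h1, h2⟩ := A_spec hf hp
  have h3 := spd_bound hf h1
  have h4 := Om_small hf hp
  have h5 : |2 + f (A f p)| ≤ spd f p.2 := by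
    refine (abs_add_le _ _).trans ?_
    have := abs_nonneg (deriv f (A f p))
    rw [abs_of_pos (by norm_num : (0:ℝ) < 2)]
    linarith
  have h6 : A f p - p.2 = -((2 + f (A f p)) * p.1) := by linarith
  rw [h6, abs_neg, abs_mul]
  calc |2 + f (A f p)| * |p.1| ≤ spd f p.2 * |p.1| := by gcongr
    _ < 1 := by linarith

lemma A_eq {p : ℝ × ℝ} (hp : p ∈ Om f) {a : ℝ} (ha : |a - p.2| ≤ 1)
    (ha2 : a + (2 + f a) * p.1 = p.2) : A f p = a :=
  uniqA hf hp (A_spec hf hp).1 ha (A_spec hf hp).2 ha2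

lemma Om_line (x : ℝ) : ((0 : ℝ), x) ∈ Om f := by
  change |(0:ℝ)| < _
  rw [abs_zero]
  exact del_pos (spd_cont hf) (spd_four hf) x

lemma A_init (x : ℝ) : A f (0, x) = x := A_eq hf (Om_line hf x) (by simp) (by simp)

lemma jac_pos {p : ℝ × ℝ} (hp : p ∈ Om f) : 0 < 1 + deriv f (A f p) * p.1 := by
  have h3 := spd_bound hf (A_spec hf hp).1
  have h4 := Om_small hf hp
  have h5 : |deriv f (A f p) * p.1| ≤ 1 / 4 := by
    rw [abs_mul]
    have := abs_nonneg (f (A f p))
    calc |deriv f (A f p)| * |p.1| ≤ spd f p.2 * |p.1| := by gcongr; linarith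
      _ ≤ 1 / 4 := by linarith
  have := abs_le.mp h5
  linarith

omit hf in
/-- a shear -/
noncomputable def eqv (c d : ℝ) (hc : c ≠ 0) : (ℝ × ℝ) ≃L[ℝ] (ℝ × ℝ) :=
  LinearEquiv.toContinuousLinearEquiv
    { toFun := fun v => (v.1, c * v.2 + d * v.1)
      invFun := fun w => (w.1, (w.2 - d * w.1) / c)
      map_add' := fun v w => by ext <;> simp; ring
      map_smul' := fun r v => by ext <;> simp; ring
      left_inv := fun v => by ext <;> simp; field_simp
      right_inv := fun v => by ext <;> simp; field_simp; ring }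

omit hf in
lemma eqv_apply (c d : ℝ) (hc : c ≠ 0) (v : ℝ × ℝ) : eqv c d hc v = (v.1, c * v.2 + d * v.1) := rfl

lemma A_smooth : ContDiffOn ℝ ∞ (A f) (Om f) := by
  intro p₀ hp₀
  apply ContDiffAt.contDiffWithinAt
  set E : ℝ × ℝ → ℝ × ℝ := fun q => (q.1, q.2 + (2 + f q.2) * q.1) with hE
  set q₀ : ℝ × ℝ := (p₀.1, A f p₀) with hq₀
  have hEq : E q₀ = p₀ := by
    apply Prod.ext
    · rfl
    · exact (A_spec hf hp₀).2
  have hEs : ContDiff ℝ ∞ E := by
    have h1 : ContDiff ℝ ∞ (fun q : ℝ × ℝ => f q.2) := hf.comp contDiff_snd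
    exact contDiff_fst.prodMk (contDiff_snd.add ((contDiff_const.add h1).mul contDiff_fst))
  have hjac := (jac_pos hf hp₀).ne'
  have hEd : HasFDerivAt E ((eqv (1 + deriv f (A f p₀) * p₀.1) (2 + f (A f p₀)) hjac :
      (ℝ × ℝ) ≃L[ℝ] (ℝ × ℝ)) : (ℝ × ℝ) →L[ℝ] (ℝ × ℝ)) q₀ := by
    have h1 : HasFDerivAt (fun q : ℝ × ℝ => q.1) (ContinuousLinearMap.fst ℝ ℝ ℝ) q₀ := hasFDerivAt_fst
    have h2 : HasFDerivAt (fun q : ℝ × ℝ => q.2) (ContinuousLinearMap.snd ℝ ℝ ℝ) q₀ := hasFDerivAt_snd
    have h3 : HasDerivAt f (deriv f (A f p₀)) (q₀.2) := (hf.differentiable (by simp) _).hasDerivAt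
    have h4 := (h3.comp_hasFDerivAt q₀ h2).const_add 2
    have h5 := h1.prodMk (h2.add (h4.mul h1))
    refine h5.congr_fderiv ?_
    ext
    · simp [eqv_apply]
    · simp [eqv_apply, hq₀]
    · simp [eqv_apply]
    · simp [eqv_apply, hq₀]; ring
  have hEat : ContDiffAt ℝ ∞ E q₀ := hEs.contDiffAt
  have hloc := hEat.to_localInverse hEd (by simp)
  have hstrict := hEat.hasStrictFDerivAt' hEd (by simp)
  set g := hEat.localInverse hEd (by simp) with hg
  rw [hEq] at hloc
  have hright : ∀ᶠ y in 𝓝 p₀, E (g y) = y := by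
    have := hstrict.eventually_right_inverse
    rw [hEq] at this
    exact this
  have hg0 : g p₀ = q₀ := by
    have := hEat.localInverse_apply_image hEd (by simp)
    rwa [hEq] at this
  have hgc : ContinuousAt g p₀ := hloc.continuousAt
  have hnear : ∀ᶠ p in 𝓝 p₀, |(g p).2 - p.2| < 1 := by
    have h1 : ContinuousAt (fun p => |(g p).2 - p.2|) p₀ :=
      ((continuous_snd.continuousAt.comp hgc).sub continuous_snd.continuousAt).abs
    apply h1.eventually_lt continuousAt_const
    rw [hg0]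
    exact A_lt hf hp₀
  have hev : A f =ᶠ[𝓝 p₀] fun p => (g p).2 := by
    filter_upwards [hright, hnear, (Om_open hf).mem_nhds hp₀] with p hp1 hp2 hp3
    have h1 : (E (g p)).1 = p.1 := congrArg Prod.fst hp1
    have h2 : (E (g p)).2 = p.2 := congrArg Prod.snd hp1
    change (g p).1 = p.1 at h1
    change (g p).2 + (2 + f (g p).2) * (g p).1 = p.2 at h2
    rw [h1] at h2
    exact A_eq hf hp3 hp2.le h2
  exact (contDiff_snd.contDiffAt.comp p₀ hloc).congr_of_eventuallyEq hev

end Pool.Agent.Q175.MG
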