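import Pool.Agent.Q175.MG.Comp

/-! Uniqueness of maximal globally hyperbolic developments. -/

set_option autoImplicit false

open Set Filter Topology
open scoped ContDiff Matrix

namespace Pool.Agent.Q175.MG

variable {φ₀ φ₁ : ℝ → ℝ}

/-- Outgoing characteristic through `p`. -/
lemma IsGHD.out {Ω : Set (ℝ × ℝ)} {Φ : ℝ × ℝ → ℝ} (h : IsGHD φ₀ φ₁ Ω Φ) {p : ℝ × ℝ} (hp : p ∈ Ω) :
    ∀ s ∈ uIcc p.1 0, (s, p.2 + (2 + Psi Φ p) * (s - p.1)) ∈ Ω ∧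
      Psi Φ (s, p.2 + (2 + Psi Φ p) * (s - p.1)) = Psi Φ p := by
  have key : ∀ T : ℝ, (∀ s ∈ uIcc p.1 T, (s, p.2 + (2 + Psi Φ p) * (s - p.1)) ∈ Ω) →
      Psi Φ (T, p.2 + (2 + Psi Φ p) * (T - p.1)) = Psi Φ p := by
    intro T hT
    have h1 := const_seg h.isOpen h.smooth h.eqn (P := p) (τ := T - p.1) (lam := Psi Φ p) rfl ?_ 1
      (right_mem_Icc.mpr zero_le_one)
    · have e1 : p.1 + 1 * (T - p.1) = T := by ring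
      have e2 : p.2 + 1 * ((T - p.1) * (2 + Psi Φ p)) = p.2 + (2 + Psi Φ p) * (T - p.1) := by ring
      rwa [e1, e2] at h1
    · intro σ hσ
      have h2 := hT (p.1 + σ * (T - p.1)) (by
        rw [mem_uIcc]
        rcases le_total p.1 T with hle | hle
        · left; constructor
          · nlinarith [hσ.1, hσ.2]
          · nlinarith [hσ.1, hσ.2]
        · right; constructor
          · nlinarith [hσ.1, hσ.2]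
          · nlinarith [hσ.1, hσ.2])
      have e : p.2 + (2 + Psi Φ p) * (p.1 + σ * (T - p.1) - p.1) =
        p.2 + σ * ((T - p.1) * (2 + Psi Φ p)) := by ring
      rwa [e] at h2
  have hmem := line_mem h.isOpen h.cauchy hp (v := 2 + Psi Φ p) (by
    intro T hT
    rw [key T hT, causal_iff (h.ne p hp)]
    simp)
  intro s hs
  refine ⟨hmem s hs, key s fun s' hs' => hmem s' ?_⟩
  exact uIcc_subset_uIcc left_mem_uIcc hs hs'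

/-- Incoming characteristic through `p`. -/
lemma IsGHD.inc {Ω : Set (ℝ × ℝ)} {Φ : ℝ × ℝ → ℝ} (h : IsGHD φ₀ φ₁ Ω Φ) {p : ℝ × ℝ} (hp : p ∈ Ω) :
    ∀ s ∈ uIcc p.1 0, (s, p.2 + (-2) * (s - p.1)) ∈ Ω := by
  apply line_mem h.isOpen h.cauchy hp
  intro T hT
  rw [causal_iff (h.ne _ (hT T right_mem_uIcc))]
  simp

/-- The characteristic triangle of `p`. -/
lemma IsGHD.tri {Ω : Set (ℝ × ℝ)} {Φ : ℝ × ℝ → ℝ} (h : IsGHD φ₀ φ₁ Ω Φ) {p : ℝ × ℝ} (hp : p ∈ Ω)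
    {v θ : ℝ} (h0 : 0 ≤ θ) (h1 : θ ≤ 1) (hv : v + 2 = θ * (4 + Psi Φ p)) :
    ∀ s ∈ uIcc p.1 0, (s, p.2 + v * (s - p.1)) ∈ Ω := by
  intro s hs
  set s' := p.1 + θ * (s - p.1) with hs'
  have hm1 : s' ∈ uIcc p.1 0 := by
    rw [mem_uIcc] at hs ⊢
    rcases hs with ⟨a, b⟩ | ⟨a, b⟩
    · left; constructor <;> nlinarith
    · right; constructor <;> nlinarith
  have hm2 : s ∈ uIcc s' 0 := by
    rw [mem_uIcc] at hs ⊢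
    rcases hs with ⟨a, b⟩ | ⟨a, b⟩
    · left; constructor <;> nlinarith
    · right; constructor <;> nlinarith
  have hr := (h.out hp s' hm1).1
  have hq := h.inc hr s hm2
  have e : p.2 + (2 + Psi Φ p) * (s' - p.1) + -2 * (s - s') = p.2 + v * (s - p.1) := by
    have : v = θ * (4 + Psi Φ p) - 2 := by linarith
    rw [this, hs']; ring
  simp only at hq
  rwa [e] at hq

/-- The values of `Ψ` on `{t = 0}`. -/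
lemma IsGHD.psi_init {Ω : Set (ℝ × ℝ)} {Φ : ℝ × ℝ → ℝ} (h : IsGHD φ₀ φ₁ Ω Φ) (x : ℝ) :
    Psi Φ (0, x) = φ₁ x - 2 * deriv φ₀ x := by
  unfold Psi
  rw [h.init₁]
  have h1 : HasFDerivAt Φ (fderiv ℝ Φ (0, x)) (0, x) :=
    ((h.smooth.contDiffAt (h.isOpen.mem_nhds (h.line_subset x))).differentiableAt (by simp)).hasFDerivAt
  have h2 : HasDerivAt (fun y : ℝ => ((0 : ℝ), y)) ((0 : ℝ), (1 : ℝ)) x :=
    (hasDerivAt_const x (0:ℝ)).prodMk (hasDerivAt_id x)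
  have h3 : HasDerivAt (fun y => Φ (0, y)) (dx Φ (0, x)) x := h1.comp_hasDerivAt x h2
  have h4 : (fun y => Φ (0, y)) = φ₀ := funext h.init₀
  rw [h4] at h3
  rw [h3.deriv]

lemma IsGHD.sign {Ω : Set (ℝ × ℝ)} {Φ : ℝ × ℝ → ℝ} (h : IsGHD φ₀ φ₁ Ω Φ) (x y : ℝ) :
    0 < (Psi Φ (0, x) + 4) * (Psi Φ (0, y) + 4) := by
  have hc : Continuous (fun x : ℝ => Psi Φ (0, x) + 4) := by
    have h1 : ContinuousOn (Psi Φ) Ω := (psi_smooth h.isOpen h.smooth).continuousOn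
    have h2 : Continuous (fun x : ℝ => ((0:ℝ), x)) := by fun_prop
    have h3 : Continuous (fun x : ℝ => Psi Φ (0, x)) :=
      h1.comp_continuous h2 h.line_subset
    exact h3.add continuous_const
  have hne : ∀ x : ℝ, Psi Φ (0, x) + 4 ≠ 0 := fun x h0 =>
    h.ne _ (h.line_subset x) (by linarith)
  by_contra hneg
  push Not at hneg
  have h0 : (0:ℝ) ∈ uIcc (Psi Φ (0, x) + 4) (Psi Φ (0, y) + 4) := by
    rw [mem_uIcc]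
    rcases lt_or_gt_of_ne (hne x) with a | a <;> rcases lt_or_gt_of_ne (hne y) with b | b
    · exfalso; nlinarith [mul_pos_of_neg_of_neg a b]
    · left; exact ⟨a.le, b.le⟩
    · right; exact ⟨b.le, a.le⟩
    · exfalso; nlinarith [mul_pos a b]
  obtain ⟨z, -, hz⟩ := intermediate_value_uIcc (f := fun x : ℝ => Psi Φ (0, x) + 4) hc.continuousOn h0
  exact hne z hz

lemma agree_psi_aux {Ω₁ Ω₂ : Set (ℝ × ℝ)} {Φ₁ Φ₂ : ℝ × ℝ → ℝ} (h₁ : IsGHD φ₀ φ₁ Ω₁ Φ₁)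
    (h₂ : IsGHD φ₀ φ₁ Ω₂ Φ₂) {p : ℝ × ℝ} (hp₁ : p ∈ Ω₁) (hp₂ : p ∈ Ω₂)
    (hle : |Psi Φ₂ p + 4| ≤ |Psi Φ₁ p + 4|) : Psi Φ₁ p = Psi Φ₂ p := by
  have f1 := h₁.out hp₁ 0 right_mem_uIcc
  have f2 := h₂.out hp₂ 0 right_mem_uIcc
  set a1 := p.2 + (2 + Psi Φ₁ p) * (0 - p.1) with ha1
  set a2 := p.2 + (2 + Psi Φ₂ p) * (0 - p.1) with ha2
  have e1 : Psi Φ₁ (0, a2) = Psi Φ₂ p := by
    rw [h₁.psi_init, ← h₂.psi_init]; exact f2.2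
  have hs := h₁.sign a1 a2
  rw [f1.2, e1] at hs
  set l1 := Psi Φ₁ p
  set l2 := Psi Φ₂ p
  have hne : l1 + 4 ≠ 0 := fun h0 => by rw [h0, zero_mul] at hs; exact lt_irrefl _ hs
  have hθ0 : 0 ≤ (l2 + 4) / (l1 + 4) := by
    have : (l2 + 4) / (l1 + 4) = ((l1 + 4) * (l2 + 4)) / (l1 + 4) ^ 2 := by field_simp
    rw [this]; positivity
  have hθ1 : (l2 + 4) / (l1 + 4) ≤ 1 := by
    refine (le_abs_self _).trans ?_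
    rw [abs_div]
    exact div_le_one_of_le₀ hle (abs_nonneg _)
  have htri := h₁.tri hp₁ (v := 2 + l2) hθ0 hθ1 (by field_simp; ring)
  have hc := const_seg h₁.isOpen h₁.smooth h₁.eqn (P := (0, a2)) (τ := p.1) (lam := l2) e1 (by
    intro σ hσ
    have h3 := htri (σ * p.1) (by
      rw [mem_uIcc]
      rcases le_total p.1 0 with hle | hle
      · left; constructor <;> nlinarith [hσ.1, hσ.2]
      · right; constructor <;> nlinarith [hσ.1, hσ.2])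
    have e2 : p.2 + (2 + l2) * (σ * p.1 - p.1) = a2 + σ * (p.1 * (2 + l2)) := by
      rw [ha2]; ring
    rw [e2] at h3
    simpa using h3) 1 (right_mem_Icc.mpr zero_le_one)
  have e3 : (((0:ℝ), a2).1 + 1 * p.1, ((0:ℝ), a2).2 + 1 * (p.1 * (2 + l2))) = p := by
    apply Prod.ext
    · simp
    · simp only [ha2]; ring
  rw [e3] at hc
  exact hc

lemma agree_psi {Ω₁ Ω₂ : Set (ℝ × ℝ)} {Φ₁ Φ₂ : ℝ × ℝ → ℝ} (h₁ : IsGHD φ₀ φ₁ Ω₁ Φ₁)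
    (h₂ : IsGHD φ₀ φ₁ Ω₂ Φ₂) {p : ℝ × ℝ} (hp₁ : p ∈ Ω₁) (hp₂ : p ∈ Ω₂) :
    Psi Φ₁ p = Psi Φ₂ p := by
  rcases le_total |Psi Φ₂ p + 4| |Psi Φ₁ p + 4| with h | h
  · exact agree_psi_aux h₁ h₂ hp₁ hp₂ h
  · exact (agree_psi_aux h₂ h₁ hp₂ hp₁ h).symm

/-- Two developments of the same data agree where both are defined. -/
lemma agree {Ω₁ Ω₂ : Set (ℝ × ℝ)} {Φ₁ Φ₂ : ℝ × ℝ → ℝ} (h₁ : IsGHD φ₀ φ₁ Ω₁ Φ₁)
    (h₂ : IsGHD φ₀ φ₁ Ω₂ Φ₂) {p : ℝ × ℝ} (hp₁ : p ∈ Ω₁) (hp₂ : p ∈ Ω₂) :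
    Φ₁ p = Φ₂ p := by
  set ℓ : ℝ → ℝ × ℝ := fun σ => (σ * p.1, p.2 + (-2) * (σ * p.1 - p.1)) with hℓ
  have hu : ∀ σ ∈ Icc (0:ℝ) 1, σ * p.1 ∈ uIcc p.1 0 := by
    intro σ hσ
    rw [mem_uIcc]
    rcases le_total p.1 0 with hle | hle
    · left; constructor <;> nlinarith [hσ.1, hσ.2]
    · right; constructor <;> nlinarith [hσ.1, hσ.2]
  have m1 : ∀ σ ∈ Icc (0:ℝ) 1, ℓ σ ∈ Ω₁ := fun σ hσ => h₁.inc hp₁ _ (hu σ hσ)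
  have m2 : ∀ σ ∈ Icc (0:ℝ) 1, ℓ σ ∈ Ω₂ := fun σ hσ => h₂.inc hp₂ _ (hu σ hσ)
  have hd : ∀ σ, HasDerivAt ℓ (p.1, -2 * p.1) σ := by
    intro σ
    have a : HasDerivAt (fun σ : ℝ => σ * p.1) p.1 σ := by
      simpa using (hasDerivAt_id σ).mul_const p.1
    have b : HasDerivAt (fun σ : ℝ => p.2 + (-2) * (σ * p.1 - p.1)) (-2 * p.1) σ :=
      ((a.sub_const p.1).const_mul (-2)).const_add p.2
    exact a.prodMk b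
  have hΦ : ∀ {Ω : Set (ℝ × ℝ)} {Φ : ℝ × ℝ → ℝ}, IsGHD φ₀ φ₁ Ω Φ → ∀ σ, ℓ σ ∈ Ω →
      HasDerivAt (fun σ => Φ (ℓ σ)) (p.1 * Psi Φ (ℓ σ)) σ := by
    intro Ω Φ h σ hσ
    have h1 : HasFDerivAt Φ (fderiv ℝ Φ (ℓ σ)) (ℓ σ) :=
      ((h.smooth.contDiffAt (h.isOpen.mem_nhds hσ)).differentiableAt (by simp)).hasFDerivAt
    refine (h1.comp_hasDerivAt σ (hd σ)).congr_deriv ?_
    rw [fderiv_split]
    unfold Psi
    ring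
  have hdiff : ∀ σ ∈ Icc (0:ℝ) 1, HasDerivAt (fun σ => Φ₁ (ℓ σ) - Φ₂ (ℓ σ)) 0 σ := by
    intro σ hσ
    refine ((hΦ h₁ σ (m1 σ hσ)).sub (hΦ h₂ σ (m2 σ hσ))).congr_deriv ?_
    rw [agree_psi h₁ h₂ (m1 σ hσ) (m2 σ hσ), sub_self]
  have hconst := constant_of_has_deriv_right_zero (f := fun σ => Φ₁ (ℓ σ) - Φ₂ (ℓ σ)) (a := 0) (b := 1)
    (fun σ hσ => (hdiff σ hσ).continuousAt.continuousWithinAt)
    (fun σ hσ => (hdiff σ (Ico_subset_Icc_self hσ)).hasDerivWithinAt) 1 (right_mem_Icc.mpr zero_le_one)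
  have e1 : ℓ 1 = p := by apply Prod.ext <;> simp [hℓ]
  have e0 : ℓ 0 = (0, p.2 + 2 * p.1) := by apply Prod.ext <;> simp [hℓ]
  simp only [e1, e0] at hconst
  rw [h₁.init₀, h₂.init₀, sub_self] at hconst
  linarith

/-- the union of the domains of all developments -/
def bigU (φ₀ φ₁ : ℝ → ℝ) : Set (ℝ × ℝ) := {p | ∃ Ω Φ, IsGHD φ₀ φ₁ Ω Φ ∧ p ∈ Ω}

open Classical in
/-- the common extension of all developments -/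
noncomputable def bigΦ (φ₀ φ₁ : ℝ → ℝ) (p : ℝ × ℝ) : ℝ :=
  if h : ∃ Φ : ℝ × ℝ → ℝ, ∃ Ω, IsGHD φ₀ φ₁ Ω Φ ∧ p ∈ Ω then h.choose p else 0

lemma big_eq {Ω : Set (ℝ × ℝ)} {Φ : ℝ × ℝ → ℝ} (h : IsGHD φ₀ φ₁ Ω Φ) : EqOn (bigΦ φ₀ φ₁) Φ Ω := by
  intro p hp
  have hex : ∃ Φ : ℝ × ℝ → ℝ, ∃ Ω, IsGHD φ₀ φ₁ Ω Φ ∧ p ∈ Ω := ⟨Φ, Ω, h, hp⟩
  unfold bigΦ
  rw [dif_pos hex]
  obtain ⟨Ω', h', hp'⟩ := hex.choose_spec
  exact agree h' h hp' hp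

lemma psi_congr {Φ Φ' : ℝ × ℝ → ℝ} {p : ℝ × ℝ} (h : Φ =ᶠ[𝓝 p] Φ') : Psi Φ p = Psi Φ' p := by
  unfold Psi dt dx
  rw [h.fderiv_eq]

lemma dt_congr {Φ Φ' : ℝ × ℝ → ℝ} {p : ℝ × ℝ} (h : Φ =ᶠ[𝓝 p] Φ') : dt Φ =ᶠ[𝓝 p] dt Φ' := by
  filter_upwards [h.fderiv (𝕜 := ℝ)] with q hq
  unfold dt; rw [hq]

lemma dx_congr {Φ Φ' : ℝ × ℝ → ℝ} {p : ℝ × ℝ} (h : Φ =ᶠ[𝓝 p] Φ') : dx Φ =ᶠ[𝓝 p] dx Φ' := by
  filter_upwards [h.fderiv (𝕜 := ℝ)] with q hq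
  unfold dx; rw [hq]

/-- The union of all developments is a development. -/
lemma big_isGHD (hex : ∃ Ω Φ, IsGHD φ₀ φ₁ Ω Φ) : IsGHD φ₀ φ₁ (bigU φ₀ φ₁) (bigΦ φ₀ φ₁) := by
  obtain ⟨Ω₀, Φ₀, h₀⟩ := hex
  have hev : ∀ {Ω : Set (ℝ × ℝ)} {Φ : ℝ × ℝ → ℝ}, IsGHD φ₀ φ₁ Ω Φ → ∀ p ∈ Ω,
      bigΦ φ₀ φ₁ =ᶠ[𝓝 p] Φ := fun h p hp =>
    (big_eq h).eventuallyEq_of_mem (h.isOpen.mem_nhds hp)
  have hsub : ∀ {Ω : Set (ℝ × ℝ)} {Φ : ℝ × ℝ → ℝ}, IsGHD φ₀ φ₁ Ω Φ → Ω ⊆ bigU φ₀ φ₁ :=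
    fun h p hp => ⟨_, _, h, hp⟩
  have hne : ∀ p ∈ bigU φ₀ φ₁, Psi (bigΦ φ₀ φ₁) p ≠ -4 := by
    rintro p ⟨Ω, Φ, h, hp⟩
    rw [psi_congr (hev h p hp)]
    exact h.ne p hp
  refine ⟨?_, fun x => ⟨_, _, h₀, h₀.line_subset x⟩, ?_, ?_, ?_, ?_, hne, ?_⟩
  · rw [isOpen_iff_mem_nhds]
    rintro p ⟨Ω, Φ, h, hp⟩
    exact mem_of_superset (h.isOpen.mem_nhds hp) (hsub h)
  · rintro p ⟨Ω, Φ, h, hp⟩
    exact ((h.smooth.contDiffAt (h.isOpen.mem_nhds hp)).congr_of_eventuallyEq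
      (hev h p hp)).contDiffWithinAt
  · rintro p ⟨Ω, Φ, h, hp⟩
    have h1 := hev h p hp
    have a1 : dt (dt (bigΦ φ₀ φ₁)) p = dt (dt Φ) p := (dt_congr (dt_congr h1)).self_of_nhds
    have a2 : dt (dx (bigΦ φ₀ φ₁)) p = dt (dx Φ) p := (dt_congr (dx_congr h1)).self_of_nhds
    have a3 : dx (dx (bigΦ φ₀ φ₁)) p = dx (dx Φ) p := (dx_congr (dx_congr h1)).self_of_nhds
    rw [a1, a2, a3, psi_congr h1]
    exact h.eqn p hp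
  · intro x
    rw [big_eq h₀ (h₀.line_subset x), h₀.init₀]
  · intro x
    rw [(dt_congr (hev h₀ _ (h₀.line_subset x))).self_of_nhds, h₀.init₁]
  · apply cauchy_of_cover hne
    rintro p ⟨Ω, Φ, h, hp⟩
    exact ⟨Ω, Psi Φ, h.isOpen, hp, hsub h, fun q hq => (psi_congr (hev h q hq)).symm, h.cauchy⟩

/-- If there is a development then the union of all developments is a maximal one. -/
theorem big_isMGHD (hex : ∃ Ω Φ, IsGHD φ₀ φ₁ Ω Φ) :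
    IsMGHD φ₀ φ₁ (bigU φ₀ φ₁) (bigΦ φ₀ φ₁) :=
  ⟨big_isGHD hex, fun _ _ h' hs _ => Subset.antisymm (fun _ hp => ⟨_, _, h', hp⟩) hs⟩

/-- Every maximal development is the union of all developments. -/
theorem mghd_eq {Ω : Set (ℝ × ℝ)} {Φ : ℝ × ℝ → ℝ} (h : IsMGHD φ₀ φ₁ Ω Φ) :
    Ω = bigU φ₀ φ₁ ∧ EqOn Φ (bigΦ φ₀ φ₁) Ω :=
  ⟨(h.2 _ _ (big_isGHD ⟨_, _, h.1⟩) (fun _ hp => ⟨_, _, h.1, hp⟩) (big_eq h.1)).symm,
    (big_eq h.1).symm⟩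

end Pool.Agent.Q175.MG
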